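import Pool.Agent.H14.MS.Pat

/-!
# Patterns with a sifted common difference, arbitrary sieve conditions (helper14)
-/

set_option autoImplicit false
set_option linter.unusedSectionVars false
set_option linter.deprecated false

namespace Pool.Agent.H14.MS

open Finset Filter Topology
open Pool.Agent.H14.SK (Pr rho Sft)

/-- the condition for `W n` -/
def TM (T : ℕ → ℤ → Prop) (W p : ℕ) (n : ℤ) : Prop := T p ((W : ℤ) * n)

lemma TM_per (T : ℕ → ℤ → Prop) (hT : ∀ p : ℕ, ∀ n m : ℤ, (p : ℤ) ∣ n - m → (T p n ↔ T p m)) (W : ℕ) :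
    ∀ p : ℕ, ∀ n m : ℤ, (p : ℤ) ∣ n - m → (TM T W p n ↔ TM T W p m) := by
  intro p n m h
  apply hT
  rw [← mul_sub]
  exact h.mul_left _

open Classical in
lemma rho_TM_le (T : ℕ → ℤ → Prop) (hT : ∀ p : ℕ, ∀ n m : ℤ, (p : ℤ) ∣ n - m → (T p n ↔ T p m))
    (W p : ℕ) (hp : p.Prime) (hpW : ¬ p ∣ W) : rho (TM T W) p ≤ rho T p := by
  unfold rho
  apply card_le_card_of_injOn (fun r => (W * r) % p)
  · intro r hr
    simp only [coe_filter, Set.mem_setOf_eq, mem_range] at hr ⊢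
    refine ⟨Nat.mod_lt _ hp.pos, ?_⟩
    refine (hT p _ _ ?_).1 hr.2
    have h1 : (((W * r) % p : ℕ) : ℤ) = ((W : ℤ) * r) % p := by push_cast; rfl
    rw [h1]
    exact Int.dvd_self_sub_emod
  · intro r hr r' hr' h
    simp only [coe_filter, Set.mem_setOf_eq, mem_range] at hr hr'
    have hco : Nat.Coprime p W := (Nat.Prime.coprime_iff_not_dvd hp).2 hpW
    have h2 : r ≡ r' [MOD p] := Nat.ModEq.cancel_left_of_coprime hco h
    exact Nat.ModEq.eq_of_lt_of_lt h2 hr.1 hr'.1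

open Classical in
lemma rho_TM_zero (T : ℕ → ℤ → Prop) (hT : ∀ p : ℕ, ∀ n m : ℤ, (p : ℤ) ∣ n - m → (T p n ↔ T p m))
    (W p : ℕ) (hpW : p ∣ W) (h0 : ¬ T p 0) : rho (TM T W) p = 0 := by
  unfold rho
  rw [card_eq_zero, filter_eq_empty_iff]
  intro r _ h
  apply h0
  refine (hT p _ _ ?_).1 h
  rw [sub_zero]
  exact (Int.natCast_dvd_natCast.2 hpW).mul_right _

open Classical in
/-- the sifting product -/
noncomputable def VP (T : ℕ → ℤ → Prop) (y : ℕ) : ℝ :=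
  ∏ p ∈ (range (y + 1)).filter Nat.Prime, (1 - (rho T p : ℝ) / p)

open Classical in
lemma rho_le_self (T : ℕ → ℤ → Prop) (p : ℕ) : rho T p ≤ p := by
  unfold rho
  exact (card_filter_le _ _).trans (card_range p).le

open Classical in
lemma fac_nonneg (T : ℕ → ℤ → Prop) (p : ℕ) (hp : p.Prime) : 0 ≤ 1 - (rho T p : ℝ) / p := by
  have hp0 : (0 : ℝ) < p := by exact_mod_cast hp.pos
  have : (rho T p : ℝ) / p ≤ 1 := by
    rw [div_le_one hp0]
    exact_mod_cast rho_le_self T p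
  linarith

open Classical in
lemma VP_le (T : ℕ → ℤ → Prop) (hT : ∀ p : ℕ, ∀ n m : ℤ, (p : ℤ) ∣ n - m → (T p n ↔ T p m))
    (w z N : ℕ) (hzN : z ≤ N) :
    VP T N ≤ ∏ p ∈ (Ioc w z).filter Nat.Prime, (1 - (rho (TM T (primorial w)) p : ℝ) / p) := by
  unfold VP
  have hsub : (Ioc w z).filter Nat.Prime ⊆ (range (N + 1)).filter Nat.Prime := by
    intro p hp
    rw [mem_filter, mem_Ioc] at hp
    rw [mem_filter, mem_range]
    exact ⟨by omega, hp.2⟩
  rw [← prod_sdiff hsub]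
  have h1 : ∏ p ∈ (range (N + 1)).filter Nat.Prime \ (Ioc w z).filter Nat.Prime,
      (1 - (rho T p : ℝ) / p) ≤ 1 := by
    apply prod_le_one
    · intro p hp
      exact fac_nonneg T p (mem_filter.1 (mem_sdiff.1 hp).1).2
    · intro p _
      have : (0 : ℝ) ≤ (rho T p : ℝ) / p := by positivity
      linarith
  have h2 : ∏ p ∈ (Ioc w z).filter Nat.Prime, (1 - (rho T p : ℝ) / p) ≤
      ∏ p ∈ (Ioc w z).filter Nat.Prime, (1 - (rho (TM T (primorial w)) p : ℝ) / p) := by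
    apply Finset.prod_le_prod
    · intro p hp
      exact fac_nonneg T p (mem_filter.1 hp).2
    · intro p hp
      rw [mem_filter, mem_Ioc] at hp
      have h3 : (rho (TM T (primorial w)) p : ℝ) ≤ rho T p := by
        exact_mod_cast rho_TM_le T hT _ p hp.2 (by
          rw [Nat.Prime.dvd_primorial_iff hp.2]
          omega)
      have h4 : (rho (TM T (primorial w)) p : ℝ) / p ≤ (rho T p : ℝ) / p :=
        div_le_div_of_nonneg_right h3 (by positivity)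
      linarith
  have h3 : 0 ≤ ∏ p ∈ (Ioc w z).filter Nat.Prime, (1 - (rho T p : ℝ) / p) :=
    prod_nonneg fun p hp => fac_nonneg T p (mem_filter.1 hp).2
  calc _ ≤ 1 * ∏ p ∈ (Ioc w z).filter Nat.Prime, (1 - (rho T p : ℝ) / p) :=
        mul_le_mul_of_nonneg_right h1 h3
    _ ≤ _ := by rw [one_mul]; exact h2

open Classical in
/-- **Patterns, with arbitrary sieve conditions.** -/
theorem patterns_abs (g k : ℕ) :
    ∃ κ : ℝ, 0 < κ ∧ ∀ (d : ℕ) (v : Fin k → Fin d → ℤ) (δ : ℝ), 0 < δ → ∃ (w : ℕ) (c : ℝ), 2 * g ≤ w ∧ 0 < c ∧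
      ∃ N₀ : ℕ, ∀ N : ℕ, N₀ ≤ N → ∀ T : ℕ → ℤ → Prop,
        (∀ p : ℕ, ∀ n m : ℤ, (p : ℤ) ∣ n - m → (T p n ↔ T p m)) → (∀ p : ℕ, p.Prime → rho T p ≤ g) →
        (∀ p : ℕ, p.Prime → p ≤ w → ¬ T p 0) →
        ∀ A ⊆ Fintype.piFinset (fun _ : Fin d => Icc (1 : ℤ) N),
        δ * (N : ℝ) ^ d ≤ A.card →
        c * (N : ℝ) ^ (d + 1) * VP T N ≤
          (((A ×ˢ Icc (1 : ℤ) N).filter (fun x => (∀ i, x.1 + x.2 • v i ∈ A) ∧
            ∀ p : ℕ, p.Prime → (p : ℝ) ≤ (N : ℝ) ^ κ → ¬ T p x.2)).card : ℝ) := by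
  obtain ⟨B, C, hC1, hcount⟩ := count k g
  obtain ⟨E, hE⟩ : ∃ E, E = (4 * B + 6) * (3 * 2 ^ (k + 1)) := ⟨_, rfl⟩
  have hE0 : 0 < E := by rw [hE]; positivity
  obtain ⟨κ, hκ⟩ : ∃ κ : ℝ, κ = 1 / (2 * E) := ⟨_, rfl⟩
  have hκ0 : 0 < κ := by rw [hκ]; positivity
  have hκ1 : κ ≤ 1 := by
    rw [hκ, div_le_one (by positivity)]
    have : (1 : ℝ) ≤ E := by exact_mod_cast hE0
    linarith
  refine ⟨κ, hκ0, ?_⟩
  intro d v δ hδ
  obtain ⟨n, Tn, c1, hn1, hc1, hvar⟩ := var v δ hδ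
  obtain ⟨η, hη⟩ : ∃ η : ℝ, η = c1 / (18 * n) := ⟨_, rfl⟩
  have hn0 : (0 : ℝ) < n := by exact_mod_cast hn1
  have hη0 : 0 < η := by rw [hη]; positivity
  obtain ⟨E1, hE1⟩ : ∃ E1 : ℝ, E1 = (2 * C) ^ (2 ^ (k + 1)) * (2 * g) ^ 2 := ⟨_, rfl⟩
  have hE10 : 0 ≤ E1 := by rw [hE1]; positivity
  obtain ⟨η', hη'⟩ : ∃ η', η' = η ^ (2 ^ (k + 1)) := ⟨_, rfl⟩
  have hη'0 : 0 < η' := by rw [hη']; positivity
  obtain ⟨w, hw1, hw2, hw3, hw4, hw5⟩ : ∃ w : ℕ, 3 ≤ w ∧ 2 * g ≤ w ∧ C ≤ w ∧ E1 ≤ w ∧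
      2 * E1 / w ≤ η' / 2 := by
    obtain ⟨w, hw⟩ := exists_nat_ge (max (max (3 : ℝ) (2 * (g : ℝ))) (max (max C E1) (4 * E1 / η')))
    have a1 : (3 : ℝ) ≤ w := le_trans (le_trans (le_max_left _ _) (le_max_left _ _)) hw
    have a2 : (2 * g : ℝ) ≤ w := le_trans (le_trans (le_max_right _ _) (le_max_left _ _)) hw
    have a3 : C ≤ w := le_trans (le_trans (le_trans (le_max_left _ _) (le_max_left _ _)) (le_max_right _ _)) hw
    have a4 : E1 ≤ w := le_trans (le_trans (le_trans (le_max_right _ _) (le_max_left _ _)) (le_max_right _ _)) hw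
    have a5 : 4 * E1 / η' ≤ w := le_trans (le_trans (le_max_right _ _) (le_max_right _ _)) hw
    refine ⟨w, by exact_mod_cast a1, by exact_mod_cast a2, a3, a4, ?_⟩
    rw [div_le_iff₀ (by linarith)]
    rw [div_le_iff₀ hη'0] at a5
    linarith
  obtain ⟨W, hW⟩ : ∃ W, W = primorial w := ⟨_, rfl⟩
  have hW0 : 0 < W := by rw [hW]; exact primorial_pos w
  obtain ⟨T', hT'⟩ : ∃ T', T' = (Tn + n) * W := ⟨_, rfl⟩
  have hT'0 : 0 < T' := by rw [hT']; positivity
  have hT'r : (0 : ℝ) < T' := by exact_mod_cast hT'0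
  obtain ⟨c, hc⟩ : ∃ c : ℝ, c = c1 / (8 * T') := ⟨_, rfl⟩
  have hc0 : 0 < c := by rw [hc]; positivity
  refine ⟨w, c, hw2, hc0, ?_⟩
  have t3 : Tendsto (fun N : ℕ => (N : ℝ) ^ κ) atTop atTop :=
    (tendsto_rpow_atTop hκ0).comp tendsto_natCast_atTop_atTop
  have t2 : Tendsto (fun N : ℕ => (N : ℝ) ^ (1 / 2 : ℝ)) atTop atTop :=
    (tendsto_rpow_atTop (by norm_num)).comp tendsto_natCast_atTop_atTop
  have hev := (((t3.eventually_ge_atTop 3).and (eventually_ge_atTop (2 * T'))).and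
    (t2.eventually_ge_atTop (2 ^ (k + 2) * (k + 2) * (2 * T') * 2 / η'))).and (eventually_ge_atTop 3)
  obtain ⟨N₀, hN₀⟩ := eventually_atTop.1 hev
  refine ⟨N₀, ?_⟩
  intro N hN T hT hg h0 A hA hcard
  obtain ⟨⟨⟨g1, g2⟩, g3⟩, g5⟩ := hN₀ N hN
  have hN0 : (0 : ℝ) < N := by exact_mod_cast (by omega : 0 < N)
  have hN1 : (1 : ℝ) < N := by exact_mod_cast (by omega : 1 < N)
  -- the number of multiples
  obtain ⟨S, hS⟩ : ∃ S, S = N / T' := ⟨_, rfl⟩
  have hST : S * T' ≤ N := by rw [hS]; exact Nat.div_mul_le_self N T'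
  have hS2 : N < 2 * T' * S := by
    have h1 : N < (N / T' + 1) * T' := by
      have := Nat.div_add_mod N T'
      have h7 := Nat.mod_lt N hT'0
      nlinarith
    rw [← hS] at h1
    have h2 : 1 ≤ S := by
      rw [hS, Nat.le_div_iff_mul_le hT'0]
      omega
    nlinarith
  have hS1 : 1 ≤ S := by
    by_contra hcon
    have : S = 0 := by omega
    rw [this] at hS2
    omega
  have hS0 : (0 : ℝ) < S := by exact_mod_cast hS1
  have hS2r : (N : ℝ) < 2 * T' * S := by exact_mod_cast hS2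
  have hTSW : Tn * (S * W) ≤ N := by
    refine le_trans ?_ hST
    rw [hT']
    nlinarith [Nat.zero_le (S * (n * W))]
  have hnSW : (n * S) * W ≤ N := by
    refine le_trans ?_ hST
    rw [hT']
    nlinarith [Nat.zero_le (S * (Tn * W))]
  have hgood := hvar S W N hTSW A hA hcard
  obtain ⟨M, hM⟩ : ∃ M, M = n * S := ⟨_, rfl⟩
  rw [← hM] at hgood hnSW
  have hMr : (M : ℝ) = n * S := by rw [hM]; push_cast; ring
  -- the sieving level
  obtain ⟨z, hz⟩ : ∃ z, z = ⌊(N : ℝ) ^ κ⌋₊ := ⟨_, rfl⟩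
  have hz3 : 3 ≤ z := by
    rw [hz]
    apply Nat.le_floor
    exact_mod_cast g1
  have hzN : (N : ℝ) ^ κ < z + 1 := by rw [hz]; exact Nat.lt_floor_add_one _
  have hzN' : (z : ℝ) ≤ (N : ℝ) ^ κ := by rw [hz]; exact Nat.floor_le (by positivity)
  have hzle : z ≤ N := by
    have : (z : ℝ) ≤ N := by
      calc (z : ℝ) ≤ (N : ℝ) ^ κ := hzN'
        _ ≤ (N : ℝ) ^ (1 : ℝ) := Real.rpow_le_rpow_of_exponent_le hN1.le hκ1
        _ = N := Real.rpow_one _
    exact_mod_cast this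
  have hzE : ((z : ℝ) ^ (4 * B + 6)) ^ (3 * 2 ^ (k + 1)) ≤ (N : ℝ) ^ (1 / 2 : ℝ) := by
    rw [← pow_mul, ← hE]
    calc (z : ℝ) ^ E ≤ ((N : ℝ) ^ κ) ^ E := pow_le_pow_left₀ (by positivity) hzN' _
      _ = (N : ℝ) ^ (1 / 2 : ℝ) := by
          rw [← Real.rpow_natCast, ← Real.rpow_mul hN0.le]
          congr 1
          rw [hκ]
          have : (0 : ℝ) < E := by exact_mod_cast hE0
          field_simp
  have hsmall : 2 * ((2 * C) ^ (2 ^ (k + 1)) * (2 * g) ^ 2) / w +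
        2 ^ (k + 2) * (k + 2) * ((z : ℝ) ^ (4 * B + 6)) ^ (3 * 2 ^ (k + 1)) / (2 * M + 1) ≤
        η ^ (2 ^ (k + 1)) := by
    rw [← hE1, ← hη']
    have h1 : 2 ^ (k + 2) * (k + 2) * ((z : ℝ) ^ (4 * B + 6)) ^ (3 * 2 ^ (k + 1)) / (2 * M + 1) ≤ η' / 2 := by
      rw [div_le_iff₀ (by positivity)]
      have h2 : (N : ℝ) / (2 * T') ≤ 2 * M + 1 := by
        rw [div_le_iff₀ (by positivity), hMr]
        have : (S : ℝ) ≤ n * S := by
          have : (1 : ℝ) ≤ n := by exact_mod_cast hn1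
          nlinarith
        nlinarith
      have h3 : (N : ℝ) ^ (1 / 2 : ℝ) * (N : ℝ) ^ (1 / 2 : ℝ) = N := by
        rw [← Real.rpow_add hN0]
        norm_num
      rw [div_le_iff₀ hη'0] at g3
      have h4 : (0 : ℝ) < (N : ℝ) ^ (1 / 2 : ℝ) := by positivity
      have h5 : 2 ^ (k + 2) * ((k : ℝ) + 2) * (2 * T') * 2 * (N : ℝ) ^ (1 / 2 : ℝ) ≤ η' * N := by
        have := mul_le_mul_of_nonneg_right g3 h4.le
        calc _ ≤ (N : ℝ) ^ (1 / 2 : ℝ) * η' * (N : ℝ) ^ (1 / 2 : ℝ) := this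
          _ = η' * ((N : ℝ) ^ (1 / 2 : ℝ) * (N : ℝ) ^ (1 / 2 : ℝ)) := by ring
          _ = _ := by rw [h3]
      calc 2 ^ (k + 2) * ((k : ℝ) + 2) * ((z : ℝ) ^ (4 * B + 6)) ^ (3 * 2 ^ (k + 1))
          ≤ 2 ^ (k + 2) * ((k : ℝ) + 2) * (N : ℝ) ^ (1 / 2 : ℝ) :=
            mul_le_mul_of_nonneg_left hzE (by positivity)
        _ = (2 ^ (k + 2) * ((k : ℝ) + 2) * (2 * T') * 2 * (N : ℝ) ^ (1 / 2 : ℝ)) / (2 * T' * 2) := by
            field_simp
        _ ≤ (η' * N) / (2 * T' * 2) := div_le_div_of_nonneg_right h5 (by positivity)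
        _ = η' / 2 * (N / (2 * T')) := by
            field_simp
        _ ≤ η' / 2 * (2 * M + 1) := mul_le_mul_of_nonneg_left h2 (by positivity)
    linarith
  have hρ : ∀ p : ℕ, p.Prime → rho (TM T W) p ≤ g := by
    intro p hp
    by_cases hpW : p ∣ W
    · rw [rho_TM_zero T hT W p hpW (h0 p hp (by
        rw [hW] at hpW
        exact (Nat.Prime.dvd_primorial_iff hp).1 hpW))]
      exact Nat.zero_le _
    · exact (rho_TM_le T hT W p hp hpW).trans (hg p hp)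
  -- the count
  have hmain := hcount (Fin d → ℤ) (TM T W) (TM_per T hT W) hρ
    w z M η A (fun i => (W : ℤ) • v i) hw1 hw2 (by omega) hw3 (by rw [← hE1]; exact hw4) hη0.le hsmall
  have hAN : (A.card : ℝ) ≤ (N : ℝ) ^ d := by
    have := card_le_card hA
    rw [Fintype.card_piFinset] at this
    simp only [Int.card_Icc, prod_const, card_univ, Fintype.card_fin] at this
    have h2 : ((N : ℤ) + 1 - 1).toNat = N := by omega
    rw [h2] at this
    exact_mod_cast this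
  obtain ⟨X1, hX1⟩ : ∃ X1 : ℝ, X1 = (((A ×ˢ Icc (1 : ℤ) M).filter
    (fun x => ∀ i, x.1 + x.2 • ((W : ℤ) • v i) ∈ A)).card : ℝ) := ⟨_, rfl⟩
  obtain ⟨X2, hX2⟩ : ∃ X2 : ℝ, X2 = (((A ×ˢ Icc (1 : ℤ) M).filter
    (fun x => (∀ i, x.1 + x.2 • ((W : ℤ) • v i) ∈ A) ∧ Sft (TM T W) w z x.2)).card : ℝ) := ⟨_, rfl⟩
  rw [← hX1] at hmain hgood
  rw [← hX2] at hmain
  have hX1' : c1 * (N : ℝ) ^ d * S / 2 ≤ X1 - 3 * η * (A.card * (2 * M + 1)) := by
    have h1 : 3 * η * (A.card * (2 * M + 1)) ≤ c1 * (N : ℝ) ^ d * S / 2 := by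
      have h2 : (2 * (M : ℝ) + 1) ≤ 3 * (n * S) := by
        rw [hMr]
        have h3 : (1 : ℝ) ≤ n * S := by
          have a1 : (1 : ℝ) ≤ n := by exact_mod_cast hn1
          have a2 : (1 : ℝ) ≤ S := by exact_mod_cast hS1
          nlinarith
        linarith
      calc 3 * η * (A.card * (2 * M + 1)) ≤ 3 * η * ((N : ℝ) ^ d * (3 * (n * S))) := by
            apply mul_le_mul_of_nonneg_left _ (by positivity)
            exact mul_le_mul hAN h2 (by positivity) (by positivity)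
        _ = c1 * (N : ℝ) ^ d * S / 2 := by
            rw [hη]
            field_simp
            ring
    linarith
  have hVq := VP_le T hT w z N hzle
  rw [← hW] at hVq
  have hVP0 : 0 ≤ VP T N := by
    unfold VP
    exact prod_nonneg fun p hp => fac_nonneg T p (mem_filter.1 hp).2
  have hX2' : c * (N : ℝ) ^ (d + 1) * VP T N ≤ X2 := by
    refine le_trans ?_ hmain
    calc c * (N : ℝ) ^ (d + 1) * VP T N =
          VP T N / 2 * (c1 * (N : ℝ) ^ d * (N / (2 * T')) / 2) := by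
          rw [hc, pow_succ]
          field_simp
          ring
      _ ≤ VP T N / 2 * (c1 * (N : ℝ) ^ d * S / 2) := by
          apply mul_le_mul_of_nonneg_left _ (by positivity)
          apply div_le_div_of_nonneg_right _ (by norm_num)
          apply mul_le_mul_of_nonneg_left _ (by positivity)
          rw [div_le_iff₀ (by positivity)]
          linarith
      _ ≤ _ := by
          apply mul_le_mul _ hX1' (by positivity) _
          · linarith
          · linarith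
  refine hX2'.trans ?_
  rw [hX2, Nat.cast_le]
  apply card_le_card_of_injOn (fun x => (x.1, (W : ℤ) * x.2))
  · rintro ⟨x, m⟩ hx
    rw [mem_coe, mem_filter, mem_product, mem_Icc] at hx
    obtain ⟨⟨h1, h2, h3⟩, h4, h5⟩ := hx
    simp only at h1 h2 h3 h4 h5
    rw [mem_coe, mem_filter, mem_product, mem_Icc]
    refine ⟨⟨h1, ?_, ?_⟩, ?_, ?_⟩
    · have : (1 : ℤ) ≤ W := by exact_mod_cast hW0
      simp only
      nlinarith
    · have h5 : ((M * W : ℕ) : ℤ) ≤ N := by exact_mod_cast hnSW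
      push_cast at h5
      have : (0 : ℤ) ≤ W := by positivity
      simp only
      nlinarith
    · intro i
      have h7 := h4 i
      rw [smul_smul, mul_comm] at h7
      exact h7
    · intro p hp hpN hd
      have hpz : p ≤ z := by
        have : (p : ℝ) < z + 1 := lt_of_le_of_lt hpN hzN
        have : p < z + 1 := by exact_mod_cast this
        omega
      rcases le_or_gt p w with hpw | hpw
      · apply h0 p hp hpw
        refine (hT p _ _ ?_).1 hd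
        rw [sub_zero]
        apply Dvd.dvd.mul_right
        rw [Int.natCast_dvd_natCast, hW]
        exact (Nat.Prime.dvd_primorial_iff hp).2 hpw
      · exact h5 p hp hpw hpz hd
  · rintro ⟨x, m⟩ _ ⟨x', m'⟩ _ h
    simp only [Prod.mk.injEq] at h ⊢
    have : (W : ℤ) ≠ 0 := by exact_mod_cast hW0.ne'
    exact ⟨h.1, mul_left_cancel₀ this h.2⟩

end Pool.Agent.H14.MS
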