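import Pool.Agent.H14.MS.Cube
import Pool.Agent.H14.SK.Four

/-!
# Correlations of the expansions of sieve functions (helper14)
-/

set_option autoImplicit false
set_option linter.unusedSectionVars false
set_option linter.deprecated false

namespace Pool.Agent.H14.MS

open Finset
open Pool.Agent.H14.SK (Pr Pr_pos Pr_union prime_dvd_Pr)

/-- the properties of the balanced variables -/
structure Bal (P : Finset ℕ) (τ : ℝ) (y : ℕ → ℤ → ℝ) : Prop where
  prime : ∀ p ∈ P, p.Prime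
  per : ∀ p ∈ P, ∀ n m : ℤ, (p : ℤ) ∣ n - m → y p n = y p m
  le_one : ∀ p ∈ P, ∀ n, |y p n| ≤ 1
  sum_zero : ∀ p ∈ P, ∑ c ∈ range p, y p c = 0
  sum_abs : ∀ p ∈ P, ∑ c ∈ range p, |y p c| ≤ τ

/-- the union of a family -/
def UU {s : ℕ} (q : (Fin s → Bool) → Finset ℕ) : Finset ℕ := univ.biUnion q

/-- the product attached to a family -/
noncomputable def Ph {s : ℕ} (y : ℕ → ℤ → ℝ) (q : (Fin s → Bool) → Finset ℕ)
    (z : Option (Fin s) → ℤ) : ℝ := ∏ ω, ∏ p ∈ q ω, y p (lf ω z)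

section

variable {s : ℕ} {P : Finset ℕ} {τ : ℝ} {y : ℕ → ℤ → ℝ}

lemma UU_subset (q : (Fin s → Bool) → Finset ℕ) (hq : ∀ ω, q ω ⊆ P) : UU q ⊆ P := by
  intro p hp
  obtain ⟨ω, _, h⟩ := mem_biUnion.1 hp
  exact hq ω h

lemma Ph_eq (q : (Fin s → Bool) → Finset ℕ) (z : Option (Fin s) → ℤ) :
    Ph y q z = ∏ p ∈ UU q, ∏ ω ∈ univ.filter (fun ω => p ∈ q ω), y p (lf ω z) := by
  unfold Ph
  apply prod_comm'
  intro ω p
  unfold UU
  simp only [mem_univ, true_and, mem_filter, mem_biUnion]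
  exact ⟨fun h => ⟨h, ⟨ω, h⟩⟩, fun h => h.1⟩

lemma abs_Ph_le (hy : Bal P τ y) (q : (Fin s → Bool) → Finset ℕ) (hq : ∀ ω, q ω ⊆ P)
    (z : Option (Fin s) → ℤ) : |Ph y q z| ≤ 1 := by
  unfold Ph
  rw [abs_prod]
  apply prod_le_one (fun _ _ => abs_nonneg _)
  intro ω _
  rw [abs_prod]
  exact prod_le_one (fun _ _ => abs_nonneg _) (fun p hp => hy.le_one p (hq ω hp) _)

lemma fam_Av (hy : Bal P τ y) (q : (Fin s → Bool) → Finset ℕ) (hq : ∀ ω, q ω ⊆ P) :
    Per (Pr (UU q)) (Ph y q) ∧ |Av (Pr (UU q)) (Ph y q)| ≤ ∏ p ∈ UU q, (τ ^ 2 / (p : ℝ) ^ 2) := by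
  have hU := UU_subset q hq
  have e : Ph y q = fun z => ∏ p ∈ UU q, ∏ ω ∈ univ.filter (fun ω => p ∈ q ω), y p (lf ω z) := by
    funext z
    exact Ph_eq q z
  have h := Av_prod (J := Option (Fin s)) (UU q) (fun p hp => hy.prime p (hU hp))
    (fun p z => ∏ ω ∈ univ.filter (fun ω => p ∈ q ω), y p (lf ω z)) (fun p hp => by
      apply Per.prod
      intro ω _
      exact per_y p (y p) (hy.per p (hU hp)) ω)
  rw [e]
  refine ⟨h.1, ?_⟩
  have h2 := h.2
  unfold Pr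
  rw [h2, abs_prod]
  apply prod_le_prod (fun _ _ => abs_nonneg _)
  intro p hp
  apply Av_T p (hy.prime p (hU hp)).pos (y p) (hy.per p (hU hp)) (hy.le_one p (hU hp))
    (hy.sum_zero p (hU hp)) τ (hy.sum_abs p (hU hp))
  obtain ⟨ω, _, h⟩ := mem_biUnion.1 hp
  exact ⟨ω, by simp [h]⟩

/-- sums over families in terms of their unions -/
lemma sum_fam_le (𝒬 : Finset (Finset ℕ)) (h𝒬 : ∀ q ∈ 𝒬, q ⊆ P ∧ q.Nonempty) (F : Finset ℕ → ℝ)
    (hF : ∀ U, 0 ≤ F U) :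
    ∑ q ∈ Fintype.piFinset (fun _ : Fin s → Bool => 𝒬), F (UU q) ≤
      ∑ U ∈ P.powerset.filter (fun U => U.Nonempty), (2 : ℝ) ^ (2 ^ s * U.card) * F U := by
  have hmaps : ∀ q ∈ Fintype.piFinset (fun _ : Fin s → Bool => 𝒬),
      UU q ∈ P.powerset.filter (fun U => U.Nonempty) := by
    intro q hq
    rw [Fintype.mem_piFinset] at hq
    rw [mem_filter, mem_powerset]
    refine ⟨UU_subset q fun ω => (h𝒬 _ (hq ω)).1, ?_⟩
    obtain ⟨p, hp⟩ := (h𝒬 _ (hq (fun _ => true))).2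
    exact ⟨p, mem_biUnion.2 ⟨_, mem_univ _, hp⟩⟩
  rw [← sum_fiberwise_of_maps_to hmaps]
  apply sum_le_sum
  intro U _
  have h1 : ∑ q ∈ (Fintype.piFinset (fun _ : Fin s → Bool => 𝒬)).filter (fun q => UU q = U), F (UU q) =
      ((Fintype.piFinset (fun _ : Fin s → Bool => 𝒬)).filter (fun q => UU q = U)).card * F U := by
    rw [← nsmul_eq_mul, ← sum_const]
    apply sum_congr rfl
    intro q hq
    rw [(mem_filter.1 hq).2]
  rw [h1]
  apply mul_le_mul_of_nonneg_right _ (hF U)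
  have h2 : ((Fintype.piFinset (fun _ : Fin s → Bool => 𝒬)).filter (fun q => UU q = U)).card ≤
      (Fintype.piFinset (fun _ : Fin s → Bool => U.powerset)).card := by
    apply card_le_card
    intro q hq
    rw [mem_filter] at hq
    rw [Fintype.mem_piFinset]
    intro ω
    rw [mem_powerset, ← hq.2]
    exact subset_biUnion_of_mem q (mem_univ ω)
  have h3 : (Fintype.piFinset (fun _ : Fin s → Bool => U.powerset)).card = 2 ^ (2 ^ s * U.card) := by
    rw [Fintype.card_piFinset]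
    simp only [card_powerset, prod_const, card_univ, Fintype.card_fun, Fintype.card_bool,
      Fintype.card_fin]
    rw [← pow_mul]
    congr 1
    ring
  rw [h3] at h2
  exact_mod_cast h2

lemma sum_inv_sq_le (w : ℕ) (hw : 1 ≤ w) (P : Finset ℕ) (hP : ∀ p ∈ P, w < p) :
    ∑ p ∈ P, 1 / (p : ℝ) ^ 2 ≤ 1 / (w : ℝ) := by
  have key : ∀ m : ℕ, w ≤ m → ∑ n ∈ Ioc w m, 1 / (n : ℝ) ^ 2 ≤ 1 / (w : ℝ) - 1 / (m : ℝ) := by
    intro m hm
    induction m, hm using Nat.le_induction with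
    | base => simp
    | succ m hm ih =>
      rw [sum_Ioc_succ_top hm]
      have hm0 : (0 : ℝ) < m := by exact_mod_cast (by omega : 0 < m)
      have h1 : 1 / ((m + 1 : ℕ) : ℝ) ^ 2 ≤ 1 / (m : ℝ) - 1 / ((m + 1 : ℕ) : ℝ) := by
        push_cast
        rw [div_sub_div _ _ hm0.ne' (by positivity), div_le_div_iff₀ (by positivity) (by positivity)]
        nlinarith
      linarith
  obtain ⟨m, hm⟩ : ∃ m : ℕ, w ≤ m ∧ ∀ p ∈ P, p ≤ m := ⟨max w (P.sup id), le_max_left _ _,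
    fun p hp => (le_sup (f := id) hp).trans (le_max_right _ _)⟩
  calc ∑ p ∈ P, 1 / (p : ℝ) ^ 2 ≤ ∑ n ∈ Ioc w m, 1 / (n : ℝ) ^ 2 := by
        apply sum_le_sum_of_subset_of_nonneg
        · intro p hp
          rw [mem_Ioc]
          exact ⟨hP p hp, hm.2 p hp⟩
        · intro _ _ _
          positivity
    _ ≤ 1 / (w : ℝ) - 1 / (m : ℝ) := key m hm.1
    _ ≤ 1 / (w : ℝ) := by
        have : (0 : ℝ) ≤ 1 / (m : ℝ) := by positivity
        linarith

/-- the sum over the nonempty sets of primes -/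
lemma sum_nonempty_le (w : ℕ) (hw : 1 ≤ w) (P : Finset ℕ) (hP : ∀ p ∈ P, w < p) (E : ℝ) (hE : 0 ≤ E)
    (hEw : E ≤ w) :
    ∑ U ∈ P.powerset.filter (fun U => U.Nonempty), ∏ p ∈ U, (E / (p : ℝ) ^ 2) ≤ 2 * E / w := by
  have hw0 : (0 : ℝ) < w := by exact_mod_cast hw
  have h1 : ∑ U ∈ P.powerset, ∏ p ∈ U, (E / (p : ℝ) ^ 2) = ∏ p ∈ P, (E / (p : ℝ) ^ 2 + 1) := by
    rw [Finset.prod_add]
    apply sum_congr rfl
    intro U _
    rw [prod_const_one, mul_one]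
  have h2 : ∑ U ∈ P.powerset, ∏ p ∈ U, (E / (p : ℝ) ^ 2) =
      ∑ U ∈ P.powerset.filter (fun U => U.Nonempty), ∏ p ∈ U, (E / (p : ℝ) ^ 2) + 1 := by
    rw [← sum_filter_add_sum_filter_not P.powerset (fun U => U.Nonempty)]
    congr 1
    have : P.powerset.filter (fun U => ¬ U.Nonempty) = {∅} := by
      ext U
      rw [mem_filter, mem_powerset, not_nonempty_iff_eq_empty, mem_singleton]
      exact ⟨fun h => h.2, fun h => ⟨h ▸ empty_subset _, h⟩⟩
    rw [this, sum_singleton, prod_empty]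
  have h3 : ∏ p ∈ P, (E / (p : ℝ) ^ 2 + 1) ≤ Real.exp (E / w) := by
    calc ∏ p ∈ P, (E / (p : ℝ) ^ 2 + 1) ≤ ∏ p ∈ P, Real.exp (E / (p : ℝ) ^ 2) := by
          apply prod_le_prod
          · intro p _
            positivity
          · intro p _
            exact Real.add_one_le_exp _
      _ = Real.exp (∑ p ∈ P, E / (p : ℝ) ^ 2) := (Real.exp_sum _ _).symm
      _ ≤ Real.exp (E / w) := by
          apply Real.exp_le_exp.2
          have := mul_le_mul_of_nonneg_left (sum_inv_sq_le w hw P hP) hE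
          rw [mul_sum] at this
          calc ∑ p ∈ P, E / (p : ℝ) ^ 2 = ∑ p ∈ P, E * (1 / (p : ℝ) ^ 2) :=
                sum_congr rfl fun p _ => by ring
            _ ≤ E * (1 / w) := this
            _ = E / w := by ring
  have h4 : Real.exp (E / w) ≤ 1 + 2 * (E / w) := by
    have hx0 : 0 ≤ E / w := by positivity
    have hx1 : E / w ≤ 1 := by
      rw [div_le_one hw0]
      exact hEw
    have := Real.abs_exp_sub_one_le (x := E / w) (by rw [abs_of_nonneg hx0]; exact hx1)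
    rw [abs_of_nonneg hx0] at this
    have := (abs_le.1 this).2
    linarith
  have e : 2 * E / w = 2 * (E / w) := by ring
  rw [e]
  linarith

lemma Pr_UU_le (hP : ∀ p ∈ P, p.Prime) (D : ℕ) (q : (Fin s → Bool) → Finset ℕ) (hq : ∀ ω, q ω ⊆ P)
    (hD : ∀ ω, Pr (q ω) ≤ D) : Pr (UU q) ≤ D ^ (2 ^ s) := by
  have h1 : Pr (UU q) ∣ ∏ ω, Pr (q ω) := by
    unfold Pr UU
    apply Finset.prod_primes_dvd
    · intro p hp
      obtain ⟨ω, _, h⟩ := mem_biUnion.1 hp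
      exact (hP p (hq ω h)).prime
    · intro p hp
      obtain ⟨ω, _, h⟩ := mem_biUnion.1 hp
      exact (dvd_prod_of_mem (fun p => p) h).trans (dvd_prod_of_mem (fun ω => ∏ p ∈ q ω, p) (mem_univ ω))
  have h2 : 0 < ∏ ω, Pr (q ω) := prod_pos fun ω _ => Pr_pos fun p hp => hP p (hq ω hp)
  calc Pr (UU q) ≤ ∏ ω, Pr (q ω) := Nat.le_of_dvd h2 h1
    _ ≤ ∏ _ω : Fin s → Bool, D := prod_le_prod' fun ω _ => hD ω
    _ = D ^ (2 ^ s) := by
        rw [prod_const, card_univ, Fintype.card_fun, Fintype.card_bool, Fintype.card_fin]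

lemma card_le_D (hP : ∀ p ∈ P, p.Prime) (D : ℕ) (𝒬 : Finset (Finset ℕ)) (h : ∀ q ∈ 𝒬, q ⊆ P ∧ Pr q ≤ D) :
    𝒬.card ≤ D := by
  have h1 : 𝒬.card ≤ (Icc 1 D).card := by
    apply card_le_card_of_injOn Pr
    · intro q hq
      have h2 := h q hq
      rw [mem_coe, mem_Icc]
      exact ⟨Pr_pos fun p hp => hP p (h2.1 hp), h2.2⟩
    · intro q hq q' hq' he
      have a1 := (h q hq).1
      have a2 := (h q' hq').1
      ext p
      constructor
      · intro hp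
        have h3 := (prime_dvd_Pr (fun p hp => hP p (a1 hp)) (hP p (a1 hp))).2 hp
        rw [he] at h3
        exact (prime_dvd_Pr (fun p hp => hP p (a2 hp)) (hP p (a1 hp))).1 h3
      · intro hp
        have h3 := (prime_dvd_Pr (fun p hp => hP p (a2 hp)) (hP p (a2 hp))).2 hp
        rw [← he] at h3
        exact (prime_dvd_Pr (fun p hp => hP p (a1 hp)) (hP p (a2 hp))).1 h3
  rw [Nat.card_Icc, Nat.add_sub_cancel] at h1
  exact h1

/-- **The correlations of an expansion without constant term along a cube are small.** -/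
theorem corr (hy : Bal P τ y) (w D M : ℕ) (hw : 1 ≤ w) (hPw : ∀ p ∈ P, w < p)
    (𝒬 : Finset (Finset ℕ)) (h𝒬 : ∀ q ∈ 𝒬, (q ⊆ P ∧ q.Nonempty) ∧ Pr q ≤ D) (c : Finset ℕ → ℝ) (B C : ℝ)
    (hB : 0 ≤ B) (hC : 1 ≤ C) (hCw : C ≤ w) (hc : ∀ q ∈ 𝒬, |c q| ≤ B * C ^ q.card)
    (hE : (2 * C) ^ (2 ^ s) * τ ^ 2 ≤ w) :
    |∑ z ∈ KS s M, ∏ ω : Fin s → Bool, ∑ q ∈ 𝒬, c q * ∏ p ∈ q, y p (lf ω z)| ≤
      B ^ (2 ^ s) * ((2 * M + 1) ^ (s + 1) * (2 * ((2 * C) ^ (2 ^ s) * τ ^ 2) / w) +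
        2 ^ (s + 1) * (s + 1) * D ^ (3 * 2 ^ s) * (2 * M + 1) ^ s) := by
  have hP := hy.prime
  have hcardΩ : (univ : Finset (Fin s → Bool)).card = 2 ^ s := by
    rw [card_univ, Fintype.card_fun, Fintype.card_bool, Fintype.card_fin]
  have e1 : ∑ z ∈ KS s M, ∏ ω : Fin s → Bool, ∑ q ∈ 𝒬, c q * ∏ p ∈ q, y p (lf ω z) =
      ∑ q ∈ Fintype.piFinset (fun _ : Fin s → Bool => 𝒬), (∏ ω, c (q ω)) * ∑ z ∈ KS s M, Ph y q z := by
    have e2 : ∀ z ∈ KS s M, ∏ ω : Fin s → Bool, ∑ q ∈ 𝒬, c q * ∏ p ∈ q, y p (lf ω z) =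
        ∑ q ∈ Fintype.piFinset (fun _ : Fin s → Bool => 𝒬), (∏ ω, c (q ω)) * Ph y q z := by
      intro z _
      rw [Finset.prod_univ_sum]
      apply sum_congr rfl
      intro q _
      rw [prod_mul_distrib]
      rfl
    rw [sum_congr rfl e2, sum_comm]
    apply sum_congr rfl
    intro q _
    rw [mul_sum]
  -- one family
  have hfam : ∀ q ∈ Fintype.piFinset (fun _ : Fin s → Bool => 𝒬),
      |(∏ ω, c (q ω)) * ∑ z ∈ KS s M, Ph y q z| ≤
      B ^ (2 ^ s) * ((2 * M + 1) ^ (s + 1) * (C ^ (2 ^ s * (UU q).card) * ∏ p ∈ UU q, (τ ^ 2 / (p : ℝ) ^ 2))) +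
      B ^ (2 ^ s) * (2 ^ (s + 1) * (s + 1) * D ^ (2 * 2 ^ s) * (2 * M + 1) ^ s) := by
    intro q hq
    rw [Fintype.mem_piFinset] at hq
    have hqP : ∀ ω, q ω ⊆ P := fun ω => (h𝒬 _ (hq ω)).1.1
    have hqD : ∀ ω, Pr (q ω) ≤ D := fun ω => (h𝒬 _ (hq ω)).2
    have hU := UU_subset q hqP
    obtain ⟨hper, hav⟩ := fam_Av hy q hqP
    have hQ : 0 < Pr (UU q) := Pr_pos fun p hp => hP p (hU hp)
    have hsum := sum_sub_Av_le (Pr (UU q)) hQ (Ph y q) hper (abs_Ph_le hy q hqP) (KS s M)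
      ((2 ^ s * ((s + 1) * Pr (UU q) * (2 * M + 1) ^ s) : ℕ) : ℝ) (fun t ht => by
        exact_mod_cast bdry s M (Pr (UU q)) t ht)
    have hQD : ((Pr (UU q) : ℕ) : ℝ) ≤ (D : ℝ) ^ (2 ^ s) := by
      exact_mod_cast Pr_UU_le hP D q hqP hqD
    have hKc : ((KS s M).card : ℝ) ≤ (2 * M + 1) ^ (s + 1) := by
      exact_mod_cast card_KS_le s M
    have hprod0 : 0 ≤ ∏ p ∈ UU q, (τ ^ 2 / (p : ℝ) ^ 2) := prod_nonneg fun _ _ => by positivity
    have h1 : |∑ z ∈ KS s M, Ph y q z| ≤ (2 * M + 1) ^ (s + 1) * (∏ p ∈ UU q, (τ ^ 2 / (p : ℝ) ^ 2)) +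
        2 ^ (s + 1) * (s + 1) * D ^ (2 ^ s) * (2 * M + 1) ^ s := by
      have h2 : |((KS s M).card : ℝ) * Av (Pr (UU q)) (Ph y q)| ≤
          (2 * M + 1) ^ (s + 1) * (∏ p ∈ UU q, (τ ^ 2 / (p : ℝ) ^ 2)) := by
        rw [abs_mul, abs_of_nonneg (Nat.cast_nonneg _)]
        exact mul_le_mul hKc hav (abs_nonneg _) (by positivity)
      have h3 : |∑ z ∈ KS s M, Ph y q z| ≤ |∑ z ∈ KS s M, Ph y q z - (KS s M).card * Av (Pr (UU q)) (Ph y q)| +
          |((KS s M).card : ℝ) * Av (Pr (UU q)) (Ph y q)| := by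
        have := abs_add_le (∑ z ∈ KS s M, Ph y q z - (KS s M).card * Av (Pr (UU q)) (Ph y q))
          (((KS s M).card : ℝ) * Av (Pr (UU q)) (Ph y q))
        rwa [sub_add_cancel] at this
      have h4 : 2 * ((2 ^ s * ((s + 1) * Pr (UU q) * (2 * M + 1) ^ s) : ℕ) : ℝ) ≤
          2 ^ (s + 1) * (s + 1) * D ^ (2 ^ s) * (2 * M + 1) ^ s := by
        push_cast
        calc 2 * ((2 : ℝ) ^ s * ((s + 1) * (Pr (UU q) : ℕ) * (2 * M + 1) ^ s)) =
              2 ^ (s + 1) * (s + 1) * (Pr (UU q) : ℕ) * (2 * M + 1) ^ s := by ring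
          _ ≤ _ := by gcongr
      linarith
    have hc1 : |∏ ω, c (q ω)| ≤ B ^ (2 ^ s) * C ^ (2 ^ s * (UU q).card) := by
      rw [abs_prod]
      calc ∏ ω, |c (q ω)| ≤ ∏ _ω : Fin s → Bool, (B * C ^ (UU q).card) := by
            apply prod_le_prod (fun _ _ => abs_nonneg _)
            intro ω _
            refine (hc _ (hq ω)).trans ?_
            apply mul_le_mul_of_nonneg_left _ hB
            apply pow_le_pow_right₀ hC
            exact card_le_card (subset_biUnion_of_mem q (mem_univ ω))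
        _ = _ := by
            rw [prod_const, hcardΩ, mul_pow, ← pow_mul]
            congr 2
            ring
    have hc2 : |∏ ω, c (q ω)| ≤ B ^ (2 ^ s) * D ^ (2 ^ s) := by
      rw [abs_prod]
      calc ∏ ω, |c (q ω)| ≤ ∏ _ω : Fin s → Bool, (B * D) := by
            apply prod_le_prod (fun _ _ => abs_nonneg _)
            intro ω _
            refine (hc _ (hq ω)).trans ?_
            apply mul_le_mul_of_nonneg_left _ hB
            calc C ^ (q ω).card = ∏ p ∈ q ω, C := by rw [prod_const]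
              _ ≤ ∏ p ∈ q ω, (p : ℝ) := by
                  apply prod_le_prod
                  · intro _ _
                    linarith
                  · intro p hp
                    have : (w : ℝ) ≤ p := by exact_mod_cast (hPw p (hqP ω hp)).le
                    linarith
              _ = ((Pr (q ω) : ℕ) : ℝ) := by
                  unfold Pr
                  push_cast
                  rfl
              _ ≤ D := by exact_mod_cast hqD ω
        _ = _ := by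
            rw [prod_const, hcardΩ, mul_pow]
    rw [abs_mul]
    calc |∏ ω, c (q ω)| * |∑ z ∈ KS s M, Ph y q z|
        ≤ |∏ ω, c (q ω)| * ((2 * M + 1) ^ (s + 1) * (∏ p ∈ UU q, (τ ^ 2 / (p : ℝ) ^ 2)) +
          2 ^ (s + 1) * (s + 1) * D ^ (2 ^ s) * (2 * M + 1) ^ s) :=
          mul_le_mul_of_nonneg_left h1 (abs_nonneg _)
      _ = |∏ ω, c (q ω)| * ((2 * M + 1) ^ (s + 1) * (∏ p ∈ UU q, (τ ^ 2 / (p : ℝ) ^ 2))) +
          |∏ ω, c (q ω)| * (2 ^ (s + 1) * (s + 1) * D ^ (2 ^ s) * (2 * M + 1) ^ s) := by ring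
      _ ≤ (B ^ (2 ^ s) * C ^ (2 ^ s * (UU q).card)) *
            ((2 * M + 1) ^ (s + 1) * (∏ p ∈ UU q, (τ ^ 2 / (p : ℝ) ^ 2))) +
          (B ^ (2 ^ s) * D ^ (2 ^ s)) * (2 ^ (s + 1) * (s + 1) * D ^ (2 ^ s) * (2 * M + 1) ^ s) :=
          add_le_add (mul_le_mul_of_nonneg_right hc1 (by positivity))
            (mul_le_mul_of_nonneg_right hc2 (by positivity))
      _ = _ := by ring
  rw [e1]
  refine (abs_sum_le_sum_abs _ _).trans ((sum_le_sum hfam).trans ?_)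
  rw [sum_add_distrib, ← mul_sum, ← mul_sum, sum_const, nsmul_eq_mul, mul_add (B ^ (2 ^ s))]
  apply add_le_add
  · apply mul_le_mul_of_nonneg_left _ (by positivity)
    apply mul_le_mul_of_nonneg_left _ (by positivity)
    have h1 := sum_fam_le (s := s) (P := P) 𝒬 (fun q hq => (h𝒬 q hq).1)
      (fun U => C ^ (2 ^ s * U.card) * ∏ p ∈ U, (τ ^ 2 / (p : ℝ) ^ 2))
      (fun U => mul_nonneg (by positivity) (prod_nonneg fun _ _ => by positivity))
    refine h1.trans ?_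
    have h2 : ∀ U : Finset ℕ, (2 : ℝ) ^ (2 ^ s * U.card) *
        (C ^ (2 ^ s * U.card) * ∏ p ∈ U, (τ ^ 2 / (p : ℝ) ^ 2)) =
        ∏ p ∈ U, (((2 * C) ^ (2 ^ s) * τ ^ 2) / (p : ℝ) ^ 2) := by
      intro U
      have : ∀ p ∈ U, ((2 * C) ^ (2 ^ s) * τ ^ 2) / (p : ℝ) ^ 2 =
          (2 * C) ^ (2 ^ s) * (τ ^ 2 / (p : ℝ) ^ 2) := fun p _ => by ring
      rw [prod_congr rfl this, prod_mul_distrib, prod_const, ← pow_mul, mul_pow]
      ring
    simp only [h2]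
    exact sum_nonempty_le w hw P hPw _ (by positivity) hE
  · have hcard : ((Fintype.piFinset (fun _ : Fin s → Bool => 𝒬)).card : ℝ) ≤ (D : ℝ) ^ (2 ^ s) := by
      rw [Fintype.card_piFinset]
      simp only [prod_const, hcardΩ]
      have := Nat.pow_le_pow_left (card_le_D hP D 𝒬 fun q hq => ⟨(h𝒬 q hq).1.1, (h𝒬 q hq).2⟩) (2 ^ s)
      exact_mod_cast this
    calc ((Fintype.piFinset (fun _ : Fin s → Bool => 𝒬)).card : ℝ) *
          (B ^ (2 ^ s) * (2 ^ (s + 1) * (s + 1) * D ^ (2 * 2 ^ s) * (2 * M + 1) ^ s))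
        ≤ (D : ℝ) ^ (2 ^ s) * (B ^ (2 ^ s) * (2 ^ (s + 1) * (s + 1) * D ^ (2 * 2 ^ s) * (2 * M + 1) ^ s)) :=
          mul_le_mul_of_nonneg_right hcard (by positivity)
      _ = _ := by ring

end

end Pool.Agent.H14.MS
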