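import Pool.Agent.H14.MS.Lat

/-!
# Correlations along the forms of a cube (helper14)
-/

set_option autoImplicit false
set_option linter.unusedSectionVars false
set_option linter.deprecated false

namespace Pool.Agent.H14.MS

open Finset

/-- the coefficients of the forms of the cube -/
def cf {s : ℕ} (ω : Fin s → Bool) : Option (Fin s) → ℤ
  | none => 1
  | some i => if ω i = true then 1 else 0

/-- the forms of the cube -/
def lf {s : ℕ} (ω : Fin s → Bool) (z : Option (Fin s) → ℤ) : ℤ := ∑ j, cf ω j * z j

lemma lf_eq {s : ℕ} (ω : Fin s → Bool) (z : Option (Fin s) → ℤ) :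
    lf ω z = z none + ∑ i, if ω i = true then z (some i) else 0 := by
  unfold lf
  rw [Fintype.sum_option]
  simp only [cf, one_mul]
  congr 1
  apply sum_congr rfl
  intro i _
  split_ifs <;> simp

lemma lf_add {s : ℕ} (ω : Fin s → Bool) (z z' : Option (Fin s) → ℤ) :
    lf ω (z + z') = lf ω z + lf ω z' := by
  unfold lf
  rw [← sum_add_distrib]
  apply sum_congr rfl
  intro j _
  rw [Pi.add_apply]
  ring

lemma lf_single {s : ℕ} (ω : Fin s → Bool) (i : Fin s) (h : ω i = false) (c : ℤ) :
    lf ω (Pi.single (some i) c) = 0 := by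
  unfold lf
  apply sum_eq_zero
  intro j _
  by_cases hj : j = some i
  · subst hj
    simp [cf, h]
  · rw [Pi.single_eq_of_ne hj, mul_zero]

lemma dvd_lf {s : ℕ} (Q : ℕ) (ω : Fin s → Bool) (z z' : Option (Fin s) → ℤ)
    (h : ∀ j, (Q : ℤ) ∣ z j - z' j) : (Q : ℤ) ∣ lf ω z - lf ω z' := by
  unfold lf
  rw [← sum_sub_distrib]
  apply dvd_sum
  intro i _
  rw [← mul_sub]
  exact (h i).mul_left _

/-- the lattice points for which all the forms of the cube are between `1` and `M` -/
noncomputable def KS (s M : ℕ) : Finset (Option (Fin s) → ℤ) :=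
  (Fintype.piFinset (fun _ : Option (Fin s) => Icc (-(M : ℤ)) M)).filter
    (fun z => ∀ ω : Fin s → Bool, 1 ≤ lf ω z ∧ lf ω z ≤ M)

lemma mem_KS {s M : ℕ} {z : Option (Fin s) → ℤ} :
    z ∈ KS s M ↔ ∀ ω : Fin s → Bool, 1 ≤ lf ω z ∧ lf ω z ≤ M := by
  unfold KS
  rw [mem_filter, Fintype.mem_piFinset]
  constructor
  · exact fun h => h.2
  · intro h
    refine ⟨?_, h⟩
    have h0 := h (fun _ => false)
    rw [lf_eq] at h0
    simp only [Bool.false_eq_true, if_false, sum_const_zero, add_zero] at h0
    intro j
    rw [mem_Icc]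
    rcases j with _ | i
    · omega
    · have h1 := h (fun k => decide (k = i))
      rw [lf_eq] at h1
      simp only [decide_eq_true_eq] at h1
      rw [sum_ite_eq' univ i (fun k => z (some k)), if_pos (mem_univ _)] at h1
      omega

lemma card_KS_le (s M : ℕ) : (KS s M).card ≤ (2 * M + 1) ^ (s + 1) := by
  unfold KS
  refine (card_filter_le _ _).trans ?_
  rw [Fintype.card_piFinset]
  simp only [Int.card_Icc, prod_const, card_univ, Fintype.card_option, Fintype.card_fin]
  apply Nat.pow_le_pow_left
  omega

/-- the number of the points near the boundary -/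
lemma bdry (s M Q : ℕ) (t : Option (Fin s) → ℕ) (ht : t ∈ Bx (Option (Fin s)) Q) :
    ((KS s M).filter (fun z => z + vec t ∉ KS s M)).card ≤
      2 ^ s * ((s + 1) * Q * (2 * M + 1) ^ s) := by
  rw [mem_Bx] at ht
  have hlt : ∀ ω : Fin s → Bool, 0 ≤ lf ω (vec t) ∧ lf ω (vec t) ≤ (s + 1) * Q := by
    intro ω
    unfold lf
    constructor
    · apply sum_nonneg
      intro j _
      apply mul_nonneg
      · rcases j with _ | i
        · simp [cf]
        · simp only [cf]
          split_ifs <;> norm_num
      · simp [vec]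
    · calc ∑ j, cf ω j * vec t j ≤ ∑ _j : Option (Fin s), (Q : ℤ) := by
            apply sum_le_sum
            intro j _
            have h1 : cf ω j ≤ 1 := by
              rcases j with _ | i
              · simp [cf]
              · simp only [cf]
                split_ifs <;> norm_num
            have h0 : 0 ≤ vec t j := by simp [vec]
            have h2 : vec t j ≤ Q := by
              simp only [vec]
              exact_mod_cast (ht j).le
            nlinarith
        _ = (s + 1) * Q := by
            rw [sum_const, card_univ, Fintype.card_option, Fintype.card_fin, nsmul_eq_mul]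
            push_cast
            ring
  obtain ⟨R, hR⟩ : ∃ R : (Fin s → Bool) → Finset (Option (Fin s) → ℤ), R = fun ω =>
    (KS s M).filter (fun z => (M : ℤ) - (s + 1) * Q < lf ω z) := ⟨_, rfl⟩
  have hsub : (KS s M).filter (fun z => z + vec t ∉ KS s M) ⊆ univ.biUnion R := by
    intro z hz
    rw [mem_filter, mem_KS, mem_KS] at hz
    obtain ⟨h1, h2⟩ := hz
    push Not at h2
    obtain ⟨ω, h3⟩ := h2
    rw [lf_add] at h3
    rw [mem_biUnion]
    refine ⟨ω, mem_univ _, ?_⟩
    rw [hR, mem_filter, mem_KS]
    refine ⟨h1, ?_⟩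
    have h4 := h3 (by have := (h1 ω).1; have := (hlt ω).1; omega)
    have h5 := (hlt ω).2
    linarith
  have hcard : ∀ ω, (R ω).card ≤ (s + 1) * Q * (2 * M + 1) ^ s := by
    intro ω
    calc (R ω).card ≤ ((Ioc ((M : ℤ) - (s + 1) * Q) M) ×ˢ
          (Fintype.piFinset (fun _ : Fin s => Icc (-(M : ℤ)) M))).card := by
          apply card_le_card_of_injOn (fun z => (lf ω z, fun i => z (some i)))
          · intro z hz
            rw [hR] at hz
            rw [mem_coe, mem_filter] at hz
            rw [mem_coe, mem_product, mem_Ioc, Fintype.mem_piFinset]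
            refine ⟨⟨hz.2, ((mem_KS.1 hz.1) ω).2⟩, fun i => ?_⟩
            have := hz.1
            unfold KS at this
            rw [mem_filter, Fintype.mem_piFinset] at this
            exact this.1 (some i)
          · intro z _ z' _ h
            simp only [Prod.mk.injEq] at h
            obtain ⟨h1, h2⟩ := h
            rw [lf_eq, lf_eq] at h1
            have h3 : ∀ i, z (some i) = z' (some i) := fun i => congrFun h2 i
            simp only [h3] at h1
            funext j
            rcases j with _ | i
            · exact add_right_cancel h1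
            · exact h3 i
      _ = (s + 1) * Q * (2 * M + 1) ^ s := by
          rw [card_product, Fintype.card_piFinset, Int.card_Ioc]
          simp only [Int.card_Icc, prod_const, card_univ, Fintype.card_fin]
          congr 1
          · have : (M : ℤ) - (M - (s + 1) * Q) = ((s + 1) * Q : ℕ) := by push_cast; ring
            rw [this, Int.toNat_natCast]
          · congr 1
            omega
  calc ((KS s M).filter (fun z => z + vec t ∉ KS s M)).card ≤ (univ.biUnion R).card :=
        card_le_card hsub
    _ ≤ ∑ ω, (R ω).card := card_biUnion_le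
    _ ≤ ∑ _ω : Fin s → Bool, (s + 1) * Q * (2 * M + 1) ^ s := sum_le_sum fun ω _ => hcard ω
    _ = _ := by
        rw [sum_const, card_univ, Fintype.card_fun, Fintype.card_bool, Fintype.card_fin, smul_eq_mul]

section local_averages

variable {s : ℕ} (p : ℕ) (hp : 0 < p) (y : ℤ → ℝ) (hy : ∀ n m : ℤ, (p : ℤ) ∣ n - m → y n = y m)

include hy

lemma per_y (ω : Fin s → Bool) : Per p (fun z : Option (Fin s) → ℤ => y (lf ω z)) :=
  fun z z' h => hy _ _ (dvd_lf p ω z z' h)

include hp

lemma Av_one (ω : Fin s → Bool) : Av p (fun z : Option (Fin s) → ℤ => y (lf ω z)) =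
    (∑ c ∈ range p, y c) / p := by
  have h := Av_form p hp (cf ω) none rfl y hy (fun _ => (1 : ℝ)) (fun _ _ _ => rfl) (fun _ _ => rfl)
  rw [Av_const p hp, mul_one] at h
  rw [← h]
  congr 1
  funext z
  rw [mul_one]
  rfl

lemma Av_two (ω ω' : Fin s → Bool) (hne : ω ≠ ω') :
    Av p (fun z : Option (Fin s) → ℤ => y (lf ω z) * y (lf ω' z)) = ((∑ c ∈ range p, y c) / p) ^ 2 := by
  have key : ∀ (ω ω' : Fin s → Bool) (i : Fin s), ω i = true → ω' i = false →
      Av p (fun z : Option (Fin s) → ℤ => y (lf ω z) * y (lf ω' z)) =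
        ((∑ c ∈ range p, y c) / p) ^ 2 := by
    intro ω ω' i h1 h2
    have h := Av_form p hp (cf ω) (some i) (by simp [cf, h1]) y hy (fun z => y (lf ω' z))
      (per_y p y hy ω') (fun z c => by rw [lf_add, lf_single ω' i h2, add_zero])
    rw [Av_one p hp y hy ω'] at h
    rw [sq, ← h]
    rfl
  obtain ⟨i, hi⟩ := Function.ne_iff.1 hne
  rcases h1 : ω i with _ | _
  · rcases h2 : ω' i with _ | _
    · exact absurd (h1.trans h2.symm) hi
    · rw [← key ω' ω i h2 h1]
      congr 1
      funext z
      rw [mul_comm]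
  · rcases h2 : ω' i with _ | _
    · exact key ω ω' i h1 h2
    · exact absurd (h1.trans h2.symm) hi

lemma Av_T (hy1 : ∀ n, |y n| ≤ 1) (hy0 : ∑ c ∈ range p, y c = 0) (τ : ℝ)
    (hτ : ∑ c ∈ range p, |y c| ≤ τ) (T : Finset (Fin s → Bool)) (hT : T.Nonempty) :
    |Av p (fun z : Option (Fin s) → ℤ => ∏ ω ∈ T, y (lf ω z))| ≤ τ ^ 2 / p ^ 2 := by
  have hp0 : (0 : ℝ) < p := by exact_mod_cast hp
  obtain ⟨ω, hω⟩ := hT
  by_cases h1 : T = {ω}
  · rw [h1]
    simp only [prod_singleton]
    rw [Av_one p hp y hy ω, hy0, zero_div, abs_zero]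
    positivity
  · obtain ⟨ω', hω', hne⟩ : ∃ ω' ∈ T, ω' ≠ ω := by
      by_contra hcon
      push Not at hcon
      apply h1
      ext x
      rw [mem_singleton]
      exact ⟨hcon x, fun h => h ▸ hω⟩
    have h2 := abs_Av_le p (fun z : Option (Fin s) → ℤ => ∏ ω ∈ T, y (lf ω z))
      (fun z => |y (lf ω z)| * |y (lf ω' z)|) (by
        intro z
        rw [abs_prod]
        have hsub : ({ω, ω'} : Finset (Fin s → Bool)) ⊆ T := by
          intro x hx
          rw [mem_insert, mem_singleton] at hx
          rcases hx with rfl | rfl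
          · exact hω
          · exact hω'
        rw [← prod_sdiff hsub, prod_pair (Ne.symm hne)]
        have h3 : ∏ x ∈ T \ {ω, ω'}, |y (lf x z)| ≤ 1 :=
          prod_le_one (fun _ _ => abs_nonneg _) (fun _ _ => hy1 _)
        have h4 : 0 ≤ |y (lf ω z)| * |y (lf ω' z)| := by positivity
        nlinarith)
    refine h2.trans ?_
    have h3 := Av_two p hp (fun n => |y n|) (fun n m h => by rw [hy n m h]) ω ω' (Ne.symm hne)
    rw [h3, div_pow]
    apply div_le_div_of_nonneg_right _ (by positivity)
    apply pow_le_pow_left₀ (sum_nonneg fun _ _ => abs_nonneg _) hτ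

end local_averages

end Pool.Agent.H14.MS
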