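import Pool.Agent.H14.MS.Cube

/-!
# The Cauchy-Schwarz inequality for patterns (helper14)
-/

set_option autoImplicit false
set_option linter.unusedSectionVars false
set_option linter.deprecated false

namespace Pool.Agent.H14.MS

open Finset

/-- the multiplicative derivative -/
def dl (h : ℤ) (g : ℤ → ℝ) : ℤ → ℝ := fun m => g m * g (m + h)

/-- `g` vanishes outside `[1, M]` -/
def Sp (M : ℕ) (g : ℤ → ℝ) : Prop := ∀ m, m ∉ Icc (1 : ℤ) M → g m = 0

lemma Sp.dl {M : ℕ} {g : ℤ → ℝ} (hg : Sp M g) (h : ℤ) : Sp M (dl h g) := by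
  intro m hm
  unfold MS.dl
  rw [hg m hm, zero_mul]

/-- normalized sums of absolute values -/
noncomputable def NA (M : ℕ) : ℕ → (ℤ → ℝ) → ℝ
  | 0, g => |∑ m ∈ Icc (1 : ℤ) M, g m| / (2 * M + 1)
  | k + 1, g => (∑ h ∈ Icc (-(M : ℤ)) M, NA M k (dl h g)) / (2 * M + 1)

/-- normalized sums -/
noncomputable def NU (M : ℕ) : ℕ → (ℤ → ℝ) → ℝ
  | 0, g => (∑ m ∈ Icc (1 : ℤ) M, g m) / (2 * M + 1)
  | k + 1, g => (∑ h ∈ Icc (-(M : ℤ)) M, NU M k (dl h g)) / (2 * M + 1)

lemma card_H (M : ℕ) : ((Icc (-(M : ℤ)) M).card : ℝ) = 2 * M + 1 := by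
  rw [Int.card_Icc]
  have : ((M : ℤ) + 1 - -(M : ℤ)).toNat = 2 * M + 1 := by omega
  rw [this]
  push_cast
  ring

lemma NA_nonneg (M k : ℕ) (g : ℤ → ℝ) : 0 ≤ NA M k g := by
  induction k generalizing g with
  | zero =>
    unfold NA
    positivity
  | succ k ih =>
    unfold NA
    exact div_nonneg (sum_nonneg fun h _ => ih _) (by positivity)

/-- the mean of nonnegative numbers to a power -/
lemma mean_pow (M : ℕ) (a : ℤ → ℝ) (ha : ∀ h, 0 ≤ a h) (n : ℕ) :
    ((∑ h ∈ Icc (-(M : ℤ)) M, a h) / (2 * M + 1)) ^ n ≤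
      (∑ h ∈ Icc (-(M : ℤ)) M, a h ^ n) / (2 * M + 1) := by
  have hH : (0 : ℝ) < 2 * M + 1 := by positivity
  have h1 := Real.pow_arith_mean_le_arith_mean_pow (Icc (-(M : ℤ)) M) (fun _ => 1 / (2 * (M : ℝ) + 1)) a
    (fun _ _ => by positivity) (by
      rw [sum_const, nsmul_eq_mul, card_H]
      field_simp) (fun h _ => ha h) n
  rw [← mul_sum, ← mul_sum] at h1
  calc ((∑ h ∈ Icc (-(M : ℤ)) M, a h) / (2 * M + 1)) ^ n =
        (1 / (2 * (M : ℝ) + 1) * ∑ h ∈ Icc (-(M : ℤ)) M, a h) ^ n := by ring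
    _ ≤ 1 / (2 * (M : ℝ) + 1) * ∑ h ∈ Icc (-(M : ℤ)) M, a h ^ n := h1
    _ = _ := by ring

/-- the sum over the second variable in terms of the difference -/
lemma sum_shift (M : ℕ) (m : ℤ) (hm : m ∈ Icc (1 : ℤ) M) (φ : ℤ → ℝ) (hφ : Sp M φ) :
    ∑ h ∈ Icc (-(M : ℤ)) M, φ (m + h) = ∑ m' ∈ Icc (1 : ℤ) M, φ m' := by
  rw [mem_Icc] at hm
  have h1 : ∑ h ∈ Icc (-(M : ℤ)) M, φ (m + h) =
      ∑ m' ∈ (Icc (-(M : ℤ)) M).image (fun h => m + h), φ m' := by
    rw [sum_image]
    intro x _ y _ hxy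
    exact add_left_cancel hxy
  rw [h1]
  symm
  apply sum_subset
  · intro m' hm'
    rw [mem_Icc] at hm'
    rw [mem_image]
    exact ⟨m' - m, by rw [mem_Icc]; omega, by ring⟩
  · intro x _ hx
    exact hφ x hx

lemma NA_sq (M k : ℕ) (g : ℤ → ℝ) (hg : Sp M g) : NA M k g ^ 2 ≤ NU M (k + 1) g := by
  induction k generalizing g with
  | zero =>
    unfold NA NU NU
    rw [div_pow, sq_abs, sq (∑ m ∈ Icc (1 : ℤ) M, g m), sum_mul_sum]
    have h1 : ∀ m ∈ Icc (1 : ℤ) M, ∑ m' ∈ Icc (1 : ℤ) M, g m * g m' =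
        ∑ h ∈ Icc (-(M : ℤ)) M, g m * g (m + h) := by
      intro m hm
      rw [← mul_sum, ← mul_sum, sum_shift M m hm g hg]
    rw [sum_congr rfl h1, sum_comm, sq, ← div_div]
    apply le_of_eq
    congr 1
    rw [sum_div]
    rfl
  | succ k ih =>
    have e1 : NA M (k + 1) g = (∑ h ∈ Icc (-(M : ℤ)) M, NA M k (dl h g)) / (2 * M + 1) := rfl
    have e2 : NU M (k + 1 + 1) g = (∑ h ∈ Icc (-(M : ℤ)) M, NU M (k + 1) (dl h g)) / (2 * M + 1) := rfl
    rw [e1, e2]
    refine (mean_pow M _ (fun h => NA_nonneg M k _) 2).trans ?_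
    apply div_le_div_of_nonneg_right _ (by positivity)
    exact sum_le_sum fun h _ => ih _ (hg.dl h)

/-! ### the sums over the cube -/

/-- the box -/
noncomputable def BB (s M : ℕ) : Finset (Option (Fin s) → ℤ) :=
  Fintype.piFinset (fun _ : Option (Fin s) => Icc (-(M : ℤ)) M)

/-- adding a coordinate -/
def ext' {s : ℕ} (h : ℤ) (z : Option (Fin s) → ℤ) : Option (Fin (s + 1)) → ℤ
  | none => z none
  | some i => Fin.cons (α := fun _ => ℤ) h (fun i => z (some i)) i

lemma lf_ext {s : ℕ} (b : Bool) (ω : Fin s → Bool) (h : ℤ) (z : Option (Fin s) → ℤ) :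
    lf (Fin.cons (α := fun _ => Bool) b ω) (ext' h z) = lf ω z + if b = true then h else 0 := by
  rw [lf_eq, lf_eq, Fin.sum_univ_succ]
  simp only [ext', Fin.cons_zero, Fin.cons_succ]
  ring

lemma prod_cons {s : ℕ} (F : (Fin (s + 1) → Bool) → ℝ) :
    ∏ ω, F ω = ∏ ω : Fin s → Bool, F (Fin.cons (α := fun _ => Bool) false ω) *
      F (Fin.cons (α := fun _ => Bool) true ω) := by
  rw [← (Fin.consEquiv (fun _ : Fin (s + 1) => Bool)).prod_comp, Fintype.prod_prod_type,
    Fintype.prod_bool, mul_comm, ← prod_mul_distrib]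
  rfl

lemma sum_BB_succ (s M : ℕ) (F : (Option (Fin (s + 1)) → ℤ) → ℝ) :
    ∑ z ∈ BB (s + 1) M, F z = ∑ h ∈ Icc (-(M : ℤ)) M, ∑ z ∈ BB s M, F (ext' h z) := by
  rw [← sum_product']
  symm
  apply sum_nbij' (fun x => ext' x.1 x.2)
    (fun z => (z (some 0), fun j => match j with
      | none => z none
      | some i => z (some i.succ)))
  · rintro ⟨h, z⟩ hx
    simp only [BB, mem_product, Fintype.mem_piFinset] at hx ⊢
    intro j
    rcases j with _ | i
    · exact hx.2 none
    · refine Fin.cases ?_ ?_ i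
      · simpa [ext'] using hx.1
      · intro i
        simpa [ext'] using hx.2 (some i)
  · intro z hz
    simp only [BB, mem_product, Fintype.mem_piFinset] at hz ⊢
    refine ⟨hz _, fun j => ?_⟩
    rcases j with _ | i
    · exact hz none
    · exact hz _
  · rintro ⟨h, z⟩ _
    simp only [Prod.mk.injEq]
    refine ⟨by simp [ext'], ?_⟩
    funext j
    rcases j with _ | i
    · rfl
    · simp [ext']
  · intro z _
    funext j
    rcases j with _ | i
    · rfl
    · refine Fin.cases ?_ ?_ i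
      · simp [ext']
      · intro i
        simp [ext']
  · rintro ⟨h, z⟩ _
    rfl

lemma NU_eq (s M : ℕ) (g : ℤ → ℝ) (hg : Sp M g) :
    NU M s g = (∑ z ∈ BB s M, ∏ ω : Fin s → Bool, g (lf ω z)) / (2 * M + 1) ^ (s + 1) := by
  induction s generalizing g with
  | zero =>
    unfold NU
    rw [pow_one]
    congr 1
    have h1 : ∑ m ∈ Icc (1 : ℤ) M, g m = ∑ m ∈ Icc (-(M : ℤ)) M, g m := by
      apply sum_subset
      · intro m hm
        rw [mem_Icc] at hm ⊢
        omega
      · intro m _ hm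
        exact hg m hm
    rw [h1]
    apply sum_nbij' (fun m => fun _ => m) (fun z => z none)
    · intro m hm
      simp only [BB, Fintype.mem_piFinset]
      exact fun _ => hm
    · intro z hz
      simp only [BB, Fintype.mem_piFinset] at hz
      exact hz none
    · intro m _
      rfl
    · intro z _
      funext j
      rcases j with _ | i
      · rfl
      · exact i.elim0
    · intro m _
      rw [Fintype.prod_unique, lf_eq]
      simp
  | succ s ih =>
    have e1 : NU M (s + 1) g = (∑ h ∈ Icc (-(M : ℤ)) M, NU M s (dl h g)) / (2 * M + 1) := rfl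
    rw [e1, sum_BB_succ, pow_succ, ← div_div]
    congr 1
    rw [sum_div]
    apply sum_congr rfl
    intro h _
    rw [ih _ (hg.dl h)]
    congr 1
    apply sum_congr rfl
    intro z _
    rw [prod_cons]
    apply prod_congr rfl
    intro ω _
    rw [lf_ext, lf_ext]
    simp [dl]

lemma NU_eq_KS (s M : ℕ) (g : ℤ → ℝ) (hg : Sp M g) :
    NU M s g = (∑ z ∈ KS s M, ∏ ω : Fin s → Bool, g (lf ω z)) / (2 * M + 1) ^ (s + 1) := by
  rw [NU_eq s M g hg]
  congr 1
  symm
  apply sum_subset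
  · unfold KS BB
    exact filter_subset _ _
  · intro z _ hz
    rw [mem_KS] at hz
    push Not at hz
    obtain ⟨ω, hω⟩ := hz
    apply prod_eq_zero (mem_univ ω)
    apply hg
    rw [mem_Icc]
    intro h
    have := hω h.1
    omega

/-! ### patterns -/

variable {X : Type} [AddCommGroup X] [DecidableEq X]

/-- the product over a list -/
def pl (L : List (X × (X → ℝ))) (x : X) (m : ℤ) : ℝ := (L.map (fun p => p.2 (x + m • p.1))).prod

/-- the form -/
noncomputable def TT (A : Finset X) (M : ℕ) (F : X → ℝ) (L : List (X × (X → ℝ))) (g : ℤ → ℝ) : ℝ :=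
  ∑ x ∈ A, F x * ∑ m ∈ Icc (1 : ℤ) M, g m * pl L x m

/-- the derived list -/
def dL (h : ℤ) (u : X) (L : List (X × (X → ℝ))) : List (X × (X → ℝ)) :=
  L.map (fun p => (p.1 - u, fun y => p.2 y * p.2 (y + h • p.1)))

/-- the functions are bounded by one and vanish outside `A` -/
def Bd (A : Finset X) (L : List (X × (X → ℝ))) : Prop :=
  ∀ p ∈ L, (∀ x, |p.2 x| ≤ 1) ∧ ∀ x, x ∉ A → p.2 x = 0

lemma Bd.dL {A : Finset X} {L : List (X × (X → ℝ))} (hL : Bd A L) (h : ℤ) (u : X) : Bd A (dL h u L) := by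
  intro p hp
  unfold MS.dL at hp
  rw [List.mem_map] at hp
  obtain ⟨q, hq, rfl⟩ := hp
  refine ⟨fun x => ?_, fun x hx => ?_⟩
  · show |q.2 x * q.2 (x + h • q.1)| ≤ 1
    rw [abs_mul]
    have h1 := (hL q hq).1 x
    have h2 := (hL q hq).1 (x + h • q.1)
    have h3 := abs_nonneg (q.2 x)
    have h4 := abs_nonneg (q.2 (x + h • q.1))
    nlinarith
  · show q.2 x * q.2 (x + h • q.1) = 0
    rw [(hL q hq).2 x hx, zero_mul]

lemma pl_mul (L : List (X × (X → ℝ))) (u y : X) (m h : ℤ) :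
    pl L (y - m • u) m * pl L (y - m • u) (m + h) = pl (dL h u L) y m := by
  induction L with
  | nil => simp [pl, dL]
  | cons p L ih =>
    unfold pl dL at ih ⊢
    simp only [List.map_cons, List.prod_cons]
    have e1 : y - m • u + m • p.1 = y + m • (p.1 - u) := by
      rw [smul_sub]
      abel
    have e2 : y - m • u + (m + h) • p.1 = y + m • (p.1 - u) + h • p.1 := by
      rw [smul_sub, add_smul]
      abel
    rw [e1, e2, ← ih]
    ring

lemma step (A : Finset X) (M : ℕ) (F₀ : X → ℝ) (hF₀ : ∀ x, |F₀ x| ≤ 1) (u : X) (F : X → ℝ)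
    (L : List (X × (X → ℝ))) (hL : Bd A ((u, F) :: L)) (g : ℤ → ℝ) (hg : Sp M g) :
    TT A M F₀ ((u, F) :: L) g ^ 2 ≤
      A.card * ∑ h ∈ Icc (-(M : ℤ)) M, TT A M (fun y => F y * F (y + h • u)) (dL h u L) (dl h g) := by
  have hF : ∀ x, x ∉ A → F x = 0 := (hL (u, F) (by simp)).2
  obtain ⟨S, hS⟩ : ∃ S : X → ℝ, S = fun x => ∑ m ∈ Icc (1 : ℤ) M, g m * pl ((u, F) :: L) x m := ⟨_, rfl⟩
  have hT : TT A M F₀ ((u, F) :: L) g = ∑ x ∈ A, F₀ x * S x := by
    rw [hS]
    rfl
  obtain ⟨B, hB⟩ : ∃ B : Finset X, B = (A ×ˢ Icc (1 : ℤ) M).image (fun x => x.1 - x.2 • u) ∪ A := ⟨_, rfl⟩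
  have h1 : TT A M F₀ ((u, F) :: L) g ^ 2 ≤ A.card * ∑ x ∈ B, S x ^ 2 := by
    rw [hT]
    calc (∑ x ∈ A, F₀ x * S x) ^ 2 ≤ (∑ x ∈ A, F₀ x ^ 2) * ∑ x ∈ A, S x ^ 2 := sum_mul_sq_le_sq_mul_sq _ _ _
      _ ≤ (∑ x ∈ A, 1) * ∑ x ∈ A, S x ^ 2 := by
          apply mul_le_mul_of_nonneg_right _ (sum_nonneg fun _ _ => by positivity)
          apply sum_le_sum
          intro x _
          have := hF₀ x
          rw [← sq_abs]
          have h0 := abs_nonneg (F₀ x)
          nlinarith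
      _ = A.card * ∑ x ∈ A, S x ^ 2 := by rw [sum_const, nsmul_eq_mul, mul_one]
      _ ≤ A.card * ∑ x ∈ B, S x ^ 2 := by
          apply mul_le_mul_of_nonneg_left _ (by positivity)
          apply sum_le_sum_of_subset_of_nonneg
          · rw [hB]
            exact subset_union_right
          · intro _ _ _
            positivity
  refine h1.trans (le_of_eq ?_)
  congr 1
  -- expand the square
  have hshift : ∀ m ∈ Icc (1 : ℤ) M, ∀ φ : X → ℝ, (∀ x, x + m • u ∉ A → φ x = 0) →
      ∑ x ∈ B, φ x = ∑ y ∈ A, φ (y - m • u) := by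
    intro m hm φ hφ
    have e1 : ∑ y ∈ A, φ (y - m • u) = ∑ x ∈ A.image (fun y => y - m • u), φ x := by
      rw [sum_image]
      intro x _ y _ hxy
      exact sub_left_injective hxy
    rw [e1]
    symm
    apply sum_subset
    · intro x hx
      rw [mem_image] at hx
      obtain ⟨y, hy, rfl⟩ := hx
      rw [hB, mem_union, mem_image]
      left
      exact ⟨(y, m), mem_product.2 ⟨hy, hm⟩, rfl⟩
    · intro x _ hx
      apply hφ
      intro h
      apply hx
      rw [mem_image]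
      exact ⟨x + m • u, h, add_sub_cancel_right _ _⟩
  have e3 : ∀ x, S x ^ 2 = ∑ m ∈ Icc (1 : ℤ) M, ∑ h ∈ Icc (-(M : ℤ)) M,
      g m * g (m + h) * (pl ((u, F) :: L) x m * pl ((u, F) :: L) x (m + h)) := by
    intro x
    rw [hS, sq, sum_mul_sum]
    apply sum_congr rfl
    intro m hm
    have h2 := sum_shift M m hm (fun m' => g m * pl ((u, F) :: L) x m * (g m' * pl ((u, F) :: L) x m'))
      (by
        intro m' hm'
        simp only
        rw [hg m' hm']
        ring)
    rw [← h2]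
    apply sum_congr rfl
    intro h _
    ring
  simp only [e3]
  rw [sum_comm]
  have e4 : ∀ m ∈ Icc (1 : ℤ) M, ∑ x ∈ B, ∑ h ∈ Icc (-(M : ℤ)) M,
      g m * g (m + h) * (pl ((u, F) :: L) x m * pl ((u, F) :: L) x (m + h)) =
      ∑ h ∈ Icc (-(M : ℤ)) M, ∑ y ∈ A, (F y * F (y + h • u)) * (dl h g m * pl (dL h u L) y m) := by
    intro m hm
    rw [sum_comm]
    apply sum_congr rfl
    intro h _
    rw [hshift m hm (fun x => g m * g (m + h) * (pl ((u, F) :: L) x m * pl ((u, F) :: L) x (m + h)))]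
    · apply sum_congr rfl
      intro y _
      rw [← pl_mul L u y m h]
      have a1 : pl ((u, F) :: L) (y - m • u) m = F y * pl L (y - m • u) m := by
        unfold pl
        simp
      have a2 : pl ((u, F) :: L) (y - m • u) (m + h) = F (y + h • u) * pl L (y - m • u) (m + h) := by
        unfold pl
        rw [List.map_cons, List.prod_cons]
        congr 2
        rw [add_smul]
        abel
      rw [a1, a2]
      unfold dl
      ring
    · intro x hx
      have a1 : pl ((u, F) :: L) x m = 0 := by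
        unfold pl
        rw [List.map_cons, List.prod_cons]
        show F (x + m • u) * _ = 0
        rw [hF _ hx, zero_mul]
      rw [a1]
      ring
  rw [sum_congr rfl e4, sum_comm]
  apply sum_congr rfl
  intro h _
  unfold TT
  rw [sum_comm]
  apply sum_congr rfl
  intro y _
  rw [mul_sum]

/-- **the Cauchy-Schwarz inequality for patterns** -/
theorem gcs (A : Finset X) (M : ℕ) (L : List (X × (X → ℝ))) (hL : Bd A L) (F₀ : X → ℝ)
    (hF₀ : ∀ x, |F₀ x| ≤ 1) (g : ℤ → ℝ) (hg : Sp M g) :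
    |TT A M F₀ L g| ^ (2 ^ L.length) ≤ (A.card * (2 * M + 1)) ^ (2 ^ L.length) * NA M L.length g := by
  obtain ⟨k, hk⟩ : ∃ k, k = L.length := ⟨_, rfl⟩
  rw [← hk]
  induction k generalizing L F₀ g with
  | zero =>
    have : L = [] := List.length_eq_zero_iff.1 hk.symm
    subst this
    unfold TT NA pl
    simp only [List.map_nil, List.prod_nil, mul_one, pow_zero, pow_one]
    rw [← sum_mul, abs_mul]
    have h1 : |∑ x ∈ A, F₀ x| ≤ A.card := by
      refine (abs_sum_le_sum_abs _ _).trans ?_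
      calc ∑ x ∈ A, |F₀ x| ≤ ∑ x ∈ A, 1 := sum_le_sum fun x _ => hF₀ x
        _ = A.card := by rw [sum_const, nsmul_eq_mul, mul_one]
    have h2 : (0 : ℝ) < 2 * M + 1 := by positivity
    calc |∑ x ∈ A, F₀ x| * |∑ m ∈ Icc (1 : ℤ) M, g m| ≤ A.card * |∑ m ∈ Icc (1 : ℤ) M, g m| :=
          mul_le_mul_of_nonneg_right h1 (abs_nonneg _)
      _ = _ := by field_simp
  | succ k ih =>
    rcases L with _ | ⟨⟨u, F⟩, L⟩
    · simp at hk
    have hk' : k = L.length := by simpa using hk
    have hLL : Bd A L := fun p hp => hL p (by simp [hp])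
    have h1 := step A M F₀ hF₀ u F L hL g hg
    have h2 : |TT A M F₀ ((u, F) :: L) g| ^ 2 ≤ (A.card * (2 * M + 1)) *
        ((∑ h ∈ Icc (-(M : ℤ)) M, |TT A M (fun y => F y * F (y + h • u)) (dL h u L) (dl h g)|) /
          (2 * M + 1)) := by
      rw [sq_abs]
      refine h1.trans ?_
      have h3 : (0 : ℝ) < 2 * M + 1 := by positivity
      calc (A.card : ℝ) * ∑ h ∈ Icc (-(M : ℤ)) M, TT A M (fun y => F y * F (y + h • u)) (dL h u L) (dl h g)
          ≤ A.card * ∑ h ∈ Icc (-(M : ℤ)) M,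
            |TT A M (fun y => F y * F (y + h • u)) (dL h u L) (dl h g)| := by
            apply mul_le_mul_of_nonneg_left _ (by positivity)
            exact sum_le_sum fun h _ => le_abs_self _
        _ = _ := by field_simp
    have hFb := (hL (u, F) (by simp)).1
    calc |TT A M F₀ ((u, F) :: L) g| ^ 2 ^ (k + 1)
        = (|TT A M F₀ ((u, F) :: L) g| ^ 2) ^ 2 ^ k := by
          rw [← pow_mul]
          congr 1
          ring
      _ ≤ ((A.card * (2 * M + 1)) *
        ((∑ h ∈ Icc (-(M : ℤ)) M, |TT A M (fun y => F y * F (y + h • u)) (dL h u L) (dl h g)|) /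
          (2 * M + 1))) ^ 2 ^ k := pow_le_pow_left₀ (by positivity) h2 _
      _ = (A.card * (2 * M + 1)) ^ 2 ^ k *
        ((∑ h ∈ Icc (-(M : ℤ)) M, |TT A M (fun y => F y * F (y + h • u)) (dL h u L) (dl h g)|) /
          (2 * M + 1)) ^ 2 ^ k := by rw [mul_pow]
      _ ≤ (A.card * (2 * M + 1)) ^ 2 ^ k *
        ((∑ h ∈ Icc (-(M : ℤ)) M,
          |TT A M (fun y => F y * F (y + h • u)) (dL h u L) (dl h g)| ^ 2 ^ k) / (2 * M + 1)) := by
          apply mul_le_mul_of_nonneg_left _ (by positivity)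
          exact mean_pow M (fun h => |TT A M (fun y => F y * F (y + h • u)) (dL h u L) (dl h g)|)
            (fun _ => abs_nonneg _) _
      _ ≤ (A.card * (2 * M + 1)) ^ 2 ^ k *
        ((∑ h ∈ Icc (-(M : ℤ)) M,
          (A.card * (2 * M + 1)) ^ 2 ^ k * NA M k (dl h g)) / (2 * M + 1)) := by
          apply mul_le_mul_of_nonneg_left _ (by positivity)
          apply div_le_div_of_nonneg_right _ (by positivity)
          apply sum_le_sum
          intro h _
          apply ih _ (hLL.dL h u) _ _ _ (hg.dl h)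
          · unfold dL
            rw [List.length_map]
            exact hk'
          · intro y
            rw [abs_mul]
            have b1 := hFb y
            have b2 := hFb (y + h • u)
            have b3 := abs_nonneg (F y)
            have b4 := abs_nonneg (F (y + h • u))
            simp only at b1 b2
            nlinarith
      _ = (A.card * (2 * M + 1)) ^ 2 ^ (k + 1) * NA M (k + 1) g := by
          rw [← mul_sum]
          have e2 : NA M (k + 1) g = (∑ h ∈ Icc (-(M : ℤ)) M, NA M k (dl h g)) / (2 * M + 1) := rfl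
          have e3 : ((A.card : ℝ) * (2 * M + 1)) ^ 2 ^ (k + 1) =
              ((A.card : ℝ) * (2 * M + 1)) ^ 2 ^ k * ((A.card : ℝ) * (2 * M + 1)) ^ 2 ^ k := by
            rw [← pow_add]
            congr 1
            ring
          rw [e2, e3]
          ring

/-- the form in terms of the sums over the cube -/
theorem gcs_cube (A : Finset X) (M : ℕ) (L : List (X × (X → ℝ))) (hL : Bd A L) (F₀ : X → ℝ)
    (hF₀ : ∀ x, |F₀ x| ≤ 1) (g : ℤ → ℝ) (hg : Sp M g) :
    |TT A M F₀ L g| ^ (2 ^ (L.length + 1)) ≤ (A.card * (2 * M + 1)) ^ (2 ^ (L.length + 1)) *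
      ((∑ z ∈ KS (L.length + 1) M, ∏ ω : Fin (L.length + 1) → Bool, g (lf ω z)) /
        (2 * M + 1) ^ (L.length + 1 + 1)) := by
  rw [← NU_eq_KS _ M g hg]
  have h1 := gcs A M L hL F₀ hF₀ g hg
  have h2 := NA_sq M L.length g hg
  calc |TT A M F₀ L g| ^ (2 ^ (L.length + 1)) = (|TT A M F₀ L g| ^ (2 ^ L.length)) ^ 2 := by
        rw [← pow_mul, pow_succ]
    _ ≤ ((A.card * (2 * M + 1)) ^ (2 ^ L.length) * NA M L.length g) ^ 2 :=
        pow_le_pow_left₀ (by positivity) h1 2
    _ = (A.card * (2 * M + 1)) ^ (2 ^ (L.length + 1)) * NA M L.length g ^ 2 := by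
        rw [mul_pow, ← pow_mul, pow_succ 2 L.length]
    _ ≤ _ := mul_le_mul_of_nonneg_left h2 (by positivity)

end Pool.Agent.H14.MS
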