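import Mathlib

/-!
# Averages of periodic functions on lattices (helper14)
-/

set_option autoImplicit false
set_option linter.unusedSectionVars false
set_option linter.deprecated false

namespace Pool.Agent.H14.MS

open Finset

variable {J : Type} [Fintype J] [DecidableEq J]

/-- `Φ` is periodic modulo `Q` in every coordinate -/
def Per (Q : ℕ) (Φ : (J → ℤ) → ℝ) : Prop :=
  ∀ z z' : J → ℤ, (∀ j, (Q : ℤ) ∣ z j - z' j) → Φ z = Φ z'

/-- the box of the residues modulo `Q` -/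
def Bx (J : Type) [Fintype J] [DecidableEq J] (Q : ℕ) : Finset (J → ℕ) :=
  Fintype.piFinset (fun _ : J => range Q)

/-- the integral vector of a vector of natural numbers -/
def vec (t : J → ℕ) : J → ℤ := fun j => (t j : ℤ)

/-- the average over a period -/
noncomputable def Av (Q : ℕ) (Φ : (J → ℤ) → ℝ) : ℝ :=
  (∑ t ∈ Bx J Q, Φ (vec t)) / (Q : ℝ) ^ Fintype.card J

lemma mem_Bx {Q : ℕ} {t : J → ℕ} : t ∈ Bx J Q ↔ ∀ j, t j < Q := by
  unfold Bx
  simp [Fintype.mem_piFinset]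

lemma card_Bx (Q : ℕ) : (Bx J Q).card = Q ^ Fintype.card J := by
  unfold Bx
  rw [Fintype.card_piFinset]
  simp

lemma Per.mono {Q Q' : ℕ} {Φ : (J → ℤ) → ℝ} (h : Per Q Φ) (hQ : Q ∣ Q') : Per Q' Φ := by
  intro z z' hz
  exact h z z' fun j => (Int.natCast_dvd_natCast.2 hQ).trans (hz j)

lemma Per.mul {Q : ℕ} {Φ Ψ : (J → ℤ) → ℝ} (h : Per Q Φ) (h' : Per Q Ψ) :
    Per Q (fun z => Φ z * Ψ z) := by
  intro z z' hz
  show Φ z * Ψ z = Φ z' * Ψ z'
  rw [h z z' hz, h' z z' hz]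

lemma Per.prod {α : Type} {Q : ℕ} (s : Finset α) (Φ : α → (J → ℤ) → ℝ) (h : ∀ a ∈ s, Per Q (Φ a)) :
    Per Q (fun z => ∏ a ∈ s, Φ a z) := by
  intro z z' hz
  exact prod_congr rfl fun a ha => h a ha z z' hz

/-- translation invariance -/
lemma Av_add (Q : ℕ) (hQ : 0 < Q) (Φ : (J → ℤ) → ℝ) (h : Per Q Φ) (c : J → ℤ) :
    Av Q (fun z => Φ (z + c)) = Av Q Φ := by
  have hQ' : (0 : ℤ) < Q := by exact_mod_cast hQ
  unfold Av
  congr 1
  apply sum_nbij' (fun t j => ((((t j : ℕ) : ℤ) + c j) % Q).toNat)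
    (fun t j => ((((t j : ℕ) : ℤ) - c j) % Q).toNat)
  · intro t _
    rw [mem_Bx]
    intro j
    have h1 := Int.emod_lt_of_pos (((t j : ℕ) : ℤ) + c j) hQ'
    have h2 := Int.emod_nonneg (((t j : ℕ) : ℤ) + c j) hQ'.ne'
    omega
  · intro t _
    rw [mem_Bx]
    intro j
    have h1 := Int.emod_lt_of_pos (((t j : ℕ) : ℤ) - c j) hQ'
    have h2 := Int.emod_nonneg (((t j : ℕ) : ℤ) - c j) hQ'.ne'
    omega
  · intro t ht
    rw [mem_Bx] at ht
    funext j
    have h2 := Int.emod_nonneg (((t j : ℕ) : ℤ) + c j) hQ'.ne'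
    simp only
    rw [Int.toNat_of_nonneg h2, Int.emod_sub_emod, add_sub_cancel_right,
      Int.emod_eq_of_lt (by positivity) (by exact_mod_cast ht j)]
    simp
  · intro t ht
    rw [mem_Bx] at ht
    funext j
    have h2 := Int.emod_nonneg (((t j : ℕ) : ℤ) - c j) hQ'.ne'
    simp only
    rw [Int.toNat_of_nonneg h2, Int.emod_add_emod, sub_add_cancel,
      Int.emod_eq_of_lt (by positivity) (by exact_mod_cast ht j)]
    simp
  · intro t _
    apply h
    intro j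
    have h2 := Int.emod_nonneg (((t j : ℕ) : ℤ) + c j) hQ'.ne'
    simp only [vec, Pi.add_apply]
    rw [Int.toNat_of_nonneg h2]
    exact Int.dvd_self_sub_emod

lemma Av_const (Q : ℕ) (hQ : 0 < Q) (c : ℝ) : Av Q (fun _ : J → ℤ => c) = c := by
  unfold Av
  rw [sum_const, card_Bx, nsmul_eq_mul]
  push_cast
  have : (0 : ℝ) < Q := by exact_mod_cast hQ
  field_simp

lemma Av_smul (Q : ℕ) (c : ℝ) (Φ : (J → ℤ) → ℝ) : Av Q (fun z => c * Φ z) = c * Av Q Φ := by
  unfold Av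
  rw [← mul_sum, mul_div_assoc]

lemma Av_sum {α : Type} (Q : ℕ) (s : Finset α) (Φ : α → (J → ℤ) → ℝ) :
    Av Q (fun z => ∑ a ∈ s, Φ a z) = ∑ a ∈ s, Av Q (Φ a) := by
  unfold Av
  rw [sum_comm, sum_div]

lemma abs_Av_le (Q : ℕ) (Φ Ψ : (J → ℤ) → ℝ) (h : ∀ z, |Φ z| ≤ Ψ z) : |Av Q Φ| ≤ Av Q Ψ := by
  unfold Av
  rw [abs_div, abs_of_nonneg (show (0 : ℝ) ≤ (Q : ℝ) ^ Fintype.card J by positivity)]
  apply div_le_div_of_nonneg_right _ (by positivity)
  exact (abs_sum_le_sum_abs _ _).trans (sum_le_sum fun t _ => h _)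

/-- the average of a function of a form that has a coefficient `1` -/
lemma Av_form (Q : ℕ) (hQ : 0 < Q) (a : J → ℤ) (j : J) (ha : a j = 1) (y : ℤ → ℝ)
    (hy : ∀ n m : ℤ, (Q : ℤ) ∣ n - m → y n = y m) (Ψ : (J → ℤ) → ℝ) (hΨ : Per Q Ψ)
    (hΨj : ∀ (z : J → ℤ) (c : ℤ), Ψ (z + Pi.single j c) = Ψ z) :
    Av Q (fun z => y (∑ i, a i * z i) * Ψ z) = ((∑ c ∈ range Q, y c) / Q) * Av Q Ψ := by
  have hQ0 : (0 : ℝ) < Q := by exact_mod_cast hQ
  have hform : ∀ (z : J → ℤ) (c : ℤ), ∑ i, a i * (z + Pi.single j c : J → ℤ) i = ∑ i, a i * z i + c := by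
    intro z c
    simp only [Pi.add_apply, mul_add, sum_add_distrib]
    congr 1
    rw [sum_eq_single j]
    · simp [ha]
    · intro i _ hi
      rw [Pi.single_eq_of_ne hi, mul_zero]
    · intro h
      exact absurd (mem_univ j) h
  have hper : Per Q (fun z => y (∑ i, a i * z i) * Ψ z) := by
    intro z z' hz
    show y (∑ i, a i * z i) * Ψ z = y (∑ i, a i * z' i) * Ψ z'
    rw [hΨ z z' hz]
    congr 1
    apply hy
    rw [← sum_sub_distrib]
    apply dvd_sum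
    intro i _
    rw [← mul_sub]
    exact (hz i).mul_left _
  have h1 : ∀ c : ℕ, Av Q (fun z => y (∑ i, a i * z i) * Ψ z) =
      Av Q (fun z => y (∑ i, a i * z i + c) * Ψ z) := by
    intro c
    rw [← Av_add Q hQ _ hper (Pi.single j (c : ℤ))]
    congr 1
    funext z
    rw [hform, hΨj]
  have h2 : (Q : ℝ) * Av Q (fun z => y (∑ i, a i * z i) * Ψ z) =
      ∑ c ∈ range Q, Av Q (fun z => y (∑ i, a i * z i + c) * Ψ z) := by
    rw [← sum_congr rfl (fun c _ => h1 c), sum_const, card_range, nsmul_eq_mul]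
  have h3 : ∀ n : ℤ, ∑ c ∈ range Q, y (n + c) = ∑ c ∈ range Q, y c := by
    intro n
    apply sum_nbij' (fun c : ℕ => ((n + (c : ℤ)) % Q).toNat) (fun c : ℕ => (((c : ℤ) - n) % Q).toNat)
    · intro c _
      rw [mem_range]
      have h1 := Int.emod_lt_of_pos (n + (c : ℤ)) (show (0 : ℤ) < Q by exact_mod_cast hQ)
      have h2 := Int.emod_nonneg (n + (c : ℤ)) (show (Q : ℤ) ≠ 0 by exact_mod_cast hQ.ne')
      omega
    · intro c _
      rw [mem_range]
      have h1 := Int.emod_lt_of_pos ((c : ℤ) - n) (show (0 : ℤ) < Q by exact_mod_cast hQ)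
      have h2 := Int.emod_nonneg ((c : ℤ) - n) (show (Q : ℤ) ≠ 0 by exact_mod_cast hQ.ne')
      omega
    · intro c hc
      rw [mem_range] at hc
      have h2 := Int.emod_nonneg (n + (c : ℤ)) (show (Q : ℤ) ≠ 0 by exact_mod_cast hQ.ne')
      rw [Int.toNat_of_nonneg h2, Int.emod_sub_emod, add_sub_cancel_left,
        Int.emod_eq_of_lt (by positivity) (by exact_mod_cast hc)]
      simp
    · intro c hc
      rw [mem_range] at hc
      have h2 := Int.emod_nonneg ((c : ℤ) - n) (show (Q : ℤ) ≠ 0 by exact_mod_cast hQ.ne')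
      rw [Int.toNat_of_nonneg h2, Int.add_emod_emod, add_sub_cancel,
        Int.emod_eq_of_lt (by positivity) (by exact_mod_cast hc)]
      simp
    · intro c _
      apply hy
      have h2 := Int.emod_nonneg (n + (c : ℤ)) (show (Q : ℤ) ≠ 0 by exact_mod_cast hQ.ne')
      rw [Int.toNat_of_nonneg h2]
      exact Int.dvd_self_sub_emod
  rw [← Av_sum] at h2
  have h4 : (fun z : J → ℤ => ∑ c ∈ range Q, y (∑ i, a i * z i + c) * Ψ z) =
      fun z => (∑ c ∈ range Q, y c) * Ψ z := by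
    funext z
    rw [← sum_mul, h3]
  rw [h4, Av_smul] at h2
  rw [div_mul_eq_mul_div, eq_div_iff hQ0.ne']
  linarith

/-- averages of products with coprime periods -/
lemma Av_mul (P Q : ℕ) (hP : 0 < P) (hQ : 0 < Q) (hPQ : Nat.Coprime P Q) (Φ Ψ : (J → ℤ) → ℝ)
    (hΦ : Per P Φ) (hΨ : Per Q Ψ) : Av (P * Q) (fun z => Φ z * Ψ z) = Av P Φ * Av Q Ψ := by
  unfold Av
  rw [div_mul_div_comm, Nat.cast_mul, mul_pow, sum_mul_sum, ← sum_product']
  congr 1
  apply sum_nbij' (fun t => ((fun j => t j % P), (fun j => t j % Q)))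
    (fun x j => (Nat.chineseRemainder hPQ (x.1 j) (x.2 j) : ℕ))
  · intro t _
    rw [mem_product, mem_Bx, mem_Bx]
    exact ⟨fun j => Nat.mod_lt _ hP, fun j => Nat.mod_lt _ hQ⟩
  · rintro ⟨x, y⟩ _
    rw [mem_Bx]
    intro j
    exact Nat.chineseRemainder_lt_mul _ _ _ hP.ne' hQ.ne'
  · intro t ht
    rw [mem_Bx] at ht
    funext j
    have h1 := (Nat.chineseRemainder hPQ (t j % P) (t j % Q)).2
    have h2 : (Nat.chineseRemainder hPQ (t j % P) (t j % Q) : ℕ) ≡ t j [MOD P * Q] := by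
      rw [← Nat.modEq_and_modEq_iff_modEq_mul hPQ]
      exact ⟨h1.1.trans (Nat.mod_modEq _ _), h1.2.trans (Nat.mod_modEq _ _)⟩
    exact Nat.ModEq.eq_of_lt_of_lt h2 (Nat.chineseRemainder_lt_mul _ _ _ hP.ne' hQ.ne') (ht j)
  · rintro ⟨x, y⟩ hxy
    rw [mem_product, mem_Bx, mem_Bx] at hxy
    simp only [Prod.mk.injEq]
    constructor
    · funext j
      have h1 := (Nat.chineseRemainder hPQ (x j) (y j)).2
      have h3 : (Nat.chineseRemainder hPQ (x j) (y j) : ℕ) % P = x j % P := h1.1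
      rw [h3, Nat.mod_eq_of_lt (hxy.1 j)]
    · funext j
      have h1 := (Nat.chineseRemainder hPQ (x j) (y j)).2
      have h3 : (Nat.chineseRemainder hPQ (x j) (y j) : ℕ) % Q = y j % Q := h1.2
      rw [h3, Nat.mod_eq_of_lt (hxy.2 j)]
  · intro t _
    have e1 : Φ (vec t) = Φ (vec fun j => t j % P) := by
      apply hΦ
      intro j
      simp only [vec]
      have := Nat.div_add_mod (t j) P
      refine ⟨((t j / P : ℕ) : ℤ), ?_⟩
      have h3 : ((P * (t j / P) + t j % P : ℕ) : ℤ) = t j := by exact_mod_cast this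
      push_cast at h3 ⊢
      linarith
    have e2 : Ψ (vec t) = Ψ (vec fun j => t j % Q) := by
      apply hΨ
      intro j
      simp only [vec]
      have := Nat.div_add_mod (t j) Q
      refine ⟨((t j / Q : ℕ) : ℤ), ?_⟩
      have h3 : ((Q * (t j / Q) + t j % Q : ℕ) : ℤ) = t j := by exact_mod_cast this
      push_cast at h3 ⊢
      linarith
    simp only
    rw [e1, e2]

lemma Av_prod (U : Finset ℕ) (hU : ∀ p ∈ U, p.Prime) (φ : ℕ → (J → ℤ) → ℝ)
    (hφ : ∀ p ∈ U, Per p (φ p)) : Per (∏ p ∈ U, p) (fun z => ∏ p ∈ U, φ p z) ∧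
    Av (∏ p ∈ U, p) (fun z => ∏ p ∈ U, φ p z) = ∏ p ∈ U, Av p (φ p) := by
  induction U using Finset.induction_on with
  | empty =>
    refine ⟨fun _ _ _ => by simp, ?_⟩
    simp only [prod_empty]
    exact Av_const 1 one_pos 1
  | insert p U hp ih =>
    obtain ⟨i1, i2⟩ := ih (fun q hq => hU q (mem_insert_of_mem hq))
      (fun q hq => hφ q (mem_insert_of_mem hq))
    have hpp := hU p (mem_insert_self _ _)
    have hper := hφ p (mem_insert_self _ _)
    have hco : Nat.Coprime p (∏ q ∈ U, q) := by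
      apply Nat.Coprime.prod_right
      intro q hq
      rw [Nat.coprime_primes hpp (hU q (mem_insert_of_mem hq))]
      intro h
      exact hp (h ▸ hq)
    have hpos : 0 < ∏ q ∈ U, q := prod_pos fun q hq => (hU q (mem_insert_of_mem hq)).pos
    simp only [prod_insert hp]
    refine ⟨?_, ?_⟩
    · exact (hper.mono (Dvd.intro _ rfl)).mul (i1.mono (Dvd.intro_left _ rfl))
    · rw [Av_mul p _ hpp.pos hpos hco _ _ hper i1, i2]

/-- sums over a finite set of lattice points -/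
lemma sum_sub_Av_le (Q : ℕ) (hQ : 0 < Q) (Φ : (J → ℤ) → ℝ) (h : Per Q Φ) (hΦ : ∀ z, |Φ z| ≤ 1)
    (K : Finset (J → ℤ)) (E : ℝ)
    (hE : ∀ t ∈ Bx J Q, ((K.filter (fun z => z + vec t ∉ K)).card : ℝ) ≤ E) :
    |∑ z ∈ K, Φ z - K.card * Av Q Φ| ≤ 2 * E := by
  have hQ0 : (0 : ℝ) < (Q : ℝ) ^ Fintype.card J := by
    have : (0 : ℝ) < Q := by exact_mod_cast hQ
    positivity
  -- for one translation
  have h1 : ∀ t ∈ Bx J Q, |∑ z ∈ K, Φ z - ∑ z ∈ K, Φ (z + vec t)| ≤ 2 * E := by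
    intro t ht
    obtain ⟨K', hK'⟩ : ∃ K', K' = K.image (fun z => z - vec t) := ⟨_, rfl⟩
    have hmem : ∀ z, z ∈ K' ↔ z + vec t ∈ K := by
      intro z
      rw [hK', mem_image]
      constructor
      · rintro ⟨x, hx, rfl⟩
        rwa [sub_add_cancel]
      · intro hz
        exact ⟨_, hz, add_sub_cancel_right _ _⟩
    have e1 : ∑ z ∈ K, Φ z = ∑ z ∈ K', Φ (z + vec t) := by
      rw [hK', sum_image]
      · apply sum_congr rfl
        intro z _
        rw [sub_add_cancel]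
      · intro x _ y _ hxy
        exact sub_left_injective hxy
    have hcard : K'.card = K.card := by
      rw [hK']
      exact card_image_of_injective _ sub_left_injective
    have hsd : (K' \ K).card = (K \ K').card := by
      have a1 := card_sdiff_add_card K' K
      have a2 := card_sdiff_add_card K K'
      rw [union_comm] at a2
      omega
    have hf : K \ K' = K.filter (fun z => z + vec t ∉ K) := by
      ext z
      rw [mem_sdiff, mem_filter, hmem]
    rw [e1]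
    have e2 : ∑ z ∈ K', Φ (z + vec t) - ∑ z ∈ K, Φ (z + vec t) =
        ∑ z ∈ K' \ K, Φ (z + vec t) - ∑ z ∈ K \ K', Φ (z + vec t) := by
      rw [← sum_sdiff_sub_sum_sdiff]
    rw [e2]
    have b1 : |∑ z ∈ K' \ K, Φ (z + vec t)| ≤ (K' \ K).card := by
      calc |∑ z ∈ K' \ K, Φ (z + vec t)| ≤ ∑ z ∈ K' \ K, |Φ (z + vec t)| := abs_sum_le_sum_abs _ _
        _ ≤ ∑ z ∈ K' \ K, 1 := sum_le_sum fun z _ => hΦ _
        _ = _ := by rw [sum_const, nsmul_eq_mul, mul_one]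
    have b2 : |∑ z ∈ K \ K', Φ (z + vec t)| ≤ (K \ K').card := by
      calc |∑ z ∈ K \ K', Φ (z + vec t)| ≤ ∑ z ∈ K \ K', |Φ (z + vec t)| := abs_sum_le_sum_abs _ _
        _ ≤ ∑ z ∈ K \ K', 1 := sum_le_sum fun z _ => hΦ _
        _ = _ := by rw [sum_const, nsmul_eq_mul, mul_one]
    have b3 : ((K \ K').card : ℝ) ≤ E := by
      rw [hf]
      exact hE t ht
    rw [hsd] at b1
    refine (abs_sub _ _).trans ?_
    linarith
  -- the average of the translates
  have h2 : ∑ t ∈ Bx J Q, ∑ z ∈ K, Φ (z + vec t) = (Q : ℝ) ^ Fintype.card J * (K.card * Av Q Φ) := by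
    rw [sum_comm]
    have h3 : ∀ z ∈ K, ∑ t ∈ Bx J Q, Φ (z + vec t) = (Q : ℝ) ^ Fintype.card J * Av Q Φ := by
      intro z _
      rw [← Av_add Q hQ Φ h z]
      unfold Av
      rw [mul_div_cancel₀ _ hQ0.ne']
      apply sum_congr rfl
      intro t _
      rw [add_comm]
    rw [sum_congr rfl h3, sum_const, nsmul_eq_mul]
    ring
  have h4 : (Q : ℝ) ^ Fintype.card J * (∑ z ∈ K, Φ z - K.card * Av Q Φ) =
      ∑ t ∈ Bx J Q, (∑ z ∈ K, Φ z - ∑ z ∈ K, Φ (z + vec t)) := by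
    rw [sum_sub_distrib, h2, sum_const, card_Bx, nsmul_eq_mul]
    push_cast
    ring
  have h5 : (Q : ℝ) ^ Fintype.card J * |∑ z ∈ K, Φ z - K.card * Av Q Φ| ≤
      (Q : ℝ) ^ Fintype.card J * (2 * E) := by
    calc (Q : ℝ) ^ Fintype.card J * |∑ z ∈ K, Φ z - K.card * Av Q Φ|
        = |(Q : ℝ) ^ Fintype.card J * (∑ z ∈ K, Φ z - K.card * Av Q Φ)| := by
          rw [abs_mul, abs_of_pos hQ0]
      _ = |∑ t ∈ Bx J Q, (∑ z ∈ K, Φ z - ∑ z ∈ K, Φ (z + vec t))| := by rw [h4]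
      _ ≤ ∑ t ∈ Bx J Q, |∑ z ∈ K, Φ z - ∑ z ∈ K, Φ (z + vec t)| := abs_sum_le_sum_abs _ _
      _ ≤ ∑ t ∈ Bx J Q, 2 * E := sum_le_sum h1
      _ = (Q : ℝ) ^ Fintype.card J * (2 * E) := by
          rw [sum_const, card_Bx, nsmul_eq_mul]
          push_cast
          ring
  exact le_of_mul_le_mul_left h5 hQ0

end Pool.Agent.H14.MS
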