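import Pool.Agent.H14.MS.Pat
import Pool.Agent.H14.SK.Main

/-!
# Patterns whose common difference has almost prime values (helper14)
-/

set_option autoImplicit false
set_option linter.unusedSectionVars false
set_option linter.deprecated false

namespace Pool.Agent.H14.MS

open Finset Polynomial Filter Topology
open Pool.Agent.H14.SK (Pr rho Sft TW TW_per rho_TW prod_ge_Vq not_dvd_of_unit Gd)
open Pool.Agent.H373R2.T7 Pool.Agent.W123.RP Pool.Agent.W123.RU.Poly

variable {ι : Type} [Fintype ι]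

open Classical in
/-- the integers at which some value is `1` or `-1` -/
lemma units_card (f : ι → ℤ[X]) (hf : Sys f) : ∃ G : ℕ, ∀ I : Finset ℤ,
    (I.filter (fun n => ∃ i, (f i).eval n = 1 ∨ (f i).eval n = -1)).card ≤ G := by
  refine ⟨∑ i, ((f i - C 1).natDegree + (f i - C (-1)).natDegree), ?_⟩
  intro I
  obtain ⟨Z, hZ⟩ : ∃ Z : Finset ℤ, Z = univ.biUnion (fun i => (f i - C 1).roots.toFinset ∪
    (f i - C (-1)).roots.toFinset) := ⟨_, rfl⟩
  have hZc : Z.card ≤ ∑ i, ((f i - C 1).natDegree + (f i - C (-1)).natDegree) := by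
    rw [hZ]
    refine card_biUnion_le.trans (sum_le_sum fun i _ => ?_)
    refine (card_union_le _ _).trans (Nat.add_le_add ?_ ?_)
    · exact (Multiset.toFinset_card_le _).trans (card_roots' _)
    · exact (Multiset.toFinset_card_le _).trans (card_roots' _)
  have hne : ∀ i (c : ℤ), f i - C c ≠ 0 := by
    intro i c h
    have h1 : f i = C c := sub_eq_zero.1 h
    have h2 := hf.deg i
    rw [h1, natDegree_C] at h2
    exact lt_irrefl 0 h2
  refine (card_le_card ?_).trans hZc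
  intro n hn
  obtain ⟨_, i, h⟩ := mem_filter.1 hn
  rw [hZ, mem_biUnion]
  refine ⟨i, mem_univ _, ?_⟩
  rw [mem_union, Multiset.mem_toFinset, Multiset.mem_toFinset, mem_roots (hne i 1),
    mem_roots (hne i (-1)), IsRoot.def, IsRoot.def, eval_sub, eval_sub, eval_C, eval_C]
  rcases h with h | h
  · left; rw [h, sub_self]
  · right; rw [h, sub_self]

open Classical in
/-- **Patterns.** -/
theorem patterns (f : ι → ℤ[X]) (hf : Sys f) (h0 : ∀ i, IsUnit ((f i).eval 0)) (k : ℕ) :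
    ∃ κ : ℝ, 0 < κ ∧ ∀ (d : ℕ) (v : Fin k → Fin d → ℤ) (δ : ℝ), 0 < δ → ∃ c : ℝ, 0 < c ∧
      ∃ N₀ : ℕ, ∀ N : ℕ, N₀ ≤ N → ∀ A ⊆ Fintype.piFinset (fun _ : Fin d => Icc (1 : ℤ) N),
        δ * (N : ℝ) ^ d ≤ A.card →
        c * (N : ℝ) ^ (d + 1) / Real.log N ^ (Fintype.card ι) ≤
          (((A ×ˢ Icc (1 : ℤ) N).filter (fun x => (∀ i, x.1 + x.2 • v i ∈ A) ∧
            Gd f ((N : ℝ) ^ κ) x.2)).card : ℝ) := by
  obtain ⟨g, hg1, hg⟩ := exists_c f hf
  obtain ⟨B, C, hC1, hcount⟩ := count k g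
  obtain ⟨G, hG⟩ := units_card f hf
  obtain ⟨v0, Cv, hv0, _, hV⟩ := V_bounds f hf
  obtain ⟨K, hK⟩ : ∃ K, K = Fintype.card ι := ⟨_, rfl⟩
  rw [← hK] at hV ⊢
  obtain ⟨E, hE⟩ : ∃ E, E = (4 * B + 6) * (3 * 2 ^ (k + 1)) := ⟨_, rfl⟩
  have hE0 : 0 < E := by rw [hE]; positivity
  obtain ⟨κ, hκ⟩ : ∃ κ : ℝ, κ = 1 / (2 * E) := ⟨_, rfl⟩
  have hκ0 : 0 < κ := by rw [hκ]; positivity
  have hκ1 : κ ≤ 1 := by
    rw [hκ, div_le_one (by positivity)]
    have : (1 : ℝ) ≤ E := by exact_mod_cast hE0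
    linarith
  refine ⟨κ, hκ0, ?_⟩
  intro d v δ hδ
  obtain ⟨n, T, c1, hn1, hc1, hvar⟩ := var v δ hδ
  obtain ⟨η, hη⟩ : ∃ η : ℝ, η = c1 / (18 * n) := ⟨_, rfl⟩
  have hn0 : (0 : ℝ) < n := by exact_mod_cast hn1
  have hη0 : 0 < η := by rw [hη]; positivity
  obtain ⟨E1, hE1⟩ : ∃ E1 : ℝ, E1 = (2 * C) ^ (2 ^ (k + 1)) * (2 * g) ^ 2 := ⟨_, rfl⟩
  have hE10 : 0 ≤ E1 := by rw [hE1]; positivity
  obtain ⟨η', hη'⟩ : ∃ η', η' = η ^ (2 ^ (k + 1)) := ⟨_, rfl⟩
  have hη'0 : 0 < η' := by rw [hη']; positivity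
  obtain ⟨w, hw1, hw2, hw3, hw4, hw5⟩ : ∃ w : ℕ, 3 ≤ w ∧ 2 * g ≤ w ∧ C ≤ w ∧ E1 ≤ w ∧
      2 * E1 / w ≤ η' / 2 := by
    obtain ⟨w, hw⟩ := exists_nat_ge (max (max (3 : ℝ) (2 * (g : ℝ))) (max (max C E1) (4 * E1 / η')))
    have a1 : (3 : ℝ) ≤ w := le_trans (le_trans (le_max_left _ _) (le_max_left _ _)) hw
    have a2 : (2 * g : ℝ) ≤ w := le_trans (le_trans (le_max_right _ _) (le_max_left _ _)) hw
    have a3 : C ≤ w := le_trans (le_trans (le_trans (le_max_left _ _) (le_max_left _ _)) (le_max_right _ _)) hw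
    have a4 : E1 ≤ w := le_trans (le_trans (le_trans (le_max_right _ _) (le_max_left _ _)) (le_max_right _ _)) hw
    have a5 : 4 * E1 / η' ≤ w := le_trans (le_trans (le_max_right _ _) (le_max_right _ _)) hw
    refine ⟨w, by exact_mod_cast a1, by exact_mod_cast a2, a3, a4, ?_⟩
    rw [div_le_iff₀ (by linarith)]
    rw [div_le_iff₀ hη'0] at a5
    linarith
  obtain ⟨W, hW⟩ : ∃ W, W = primorial w := ⟨_, rfl⟩
  have hW0 : 0 < W := by rw [hW]; exact primorial_pos w
  obtain ⟨T', hT'⟩ : ∃ T', T' = (T + n) * W := ⟨_, rfl⟩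
  have hT'0 : 0 < T' := by rw [hT']; positivity
  have hT'r : (0 : ℝ) < T' := by exact_mod_cast hT'0
  obtain ⟨c, hc⟩ : ∃ c : ℝ, c = v0 * c1 / (16 * T') := ⟨_, rfl⟩
  have hc0 : 0 < c := by rw [hc]; positivity
  refine ⟨c, hc0, ?_⟩
  have t3 : Tendsto (fun N : ℕ => (N : ℝ) ^ κ) atTop atTop :=
    (tendsto_rpow_atTop hκ0).comp tendsto_natCast_atTop_atTop
  have t2 : Tendsto (fun N : ℕ => (N : ℝ) ^ (1 / 2 : ℝ)) atTop atTop :=
    (tendsto_rpow_atTop (by norm_num)).comp tendsto_natCast_atTop_atTop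
  have t4 : Tendsto (fun N : ℕ => (N : ℝ) ^ (1 : ℝ) / Real.log N ^ K) atTop atTop := by
    have h1 : Tendsto (fun x : ℝ => x ^ (1 : ℝ) / Real.log x ^ K) atTop atTop := by
      have h2 := (isLittleO_log_rpow_rpow_atTop ((K : ℕ) : ℝ) (show (0 : ℝ) < 1 by norm_num))
      have h3 := h2.tendsto_div_nhds_zero
      have h4 : Tendsto (fun x : ℝ => (Real.log x ^ ((K : ℕ) : ℝ) / x ^ (1 : ℝ))⁻¹) atTop atTop := by
        apply Tendsto.inv_tendsto_nhdsGT_zero
        rw [tendsto_nhdsWithin_iff]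
        refine ⟨h3, ?_⟩
        filter_upwards [eventually_gt_atTop 1] with x hx
        have : 0 < Real.log x := Real.log_pos hx
        simp only [Set.mem_Ioi]
        positivity
      refine h4.congr' ?_
      filter_upwards [eventually_gt_atTop 1] with x hx
      rw [inv_div, Real.rpow_natCast]
    exact h1.comp tendsto_natCast_atTop_atTop
  have hev := (((t3.eventually_ge_atTop 3).and (eventually_ge_atTop (2 * T'))).and
    (t2.eventually_ge_atTop (2 ^ (k + 2) * (k + 2) * (2 * T') * 2 / η'))).and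
    ((t4.eventually_ge_atTop (G / c)).and (eventually_ge_atTop 3))
  obtain ⟨N₀, hN₀⟩ := eventually_atTop.1 hev
  refine ⟨N₀, ?_⟩
  intro N hN A hA hcard
  obtain ⟨⟨⟨g1, g2⟩, g3⟩, ⟨g4, g5⟩⟩ := hN₀ N hN
  rw [Real.rpow_one] at g4
  have hN0 : (0 : ℝ) < N := by exact_mod_cast (by omega : 0 < N)
  have hN1 : (1 : ℝ) < N := by exact_mod_cast (by omega : 1 < N)
  have hL0 : 0 < Real.log N := Real.log_pos hN1
  -- the number of multiples
  obtain ⟨S, hS⟩ : ∃ S, S = N / T' := ⟨_, rfl⟩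
  have hST : S * T' ≤ N := by rw [hS]; exact Nat.div_mul_le_self N T'
  have hS2 : N < 2 * T' * S := by
    have h1 : N < (N / T' + 1) * T' := by
      have := Nat.div_add_mod N T'
      have h7 := Nat.mod_lt N hT'0
      nlinarith
    rw [← hS] at h1
    have h2 : 1 ≤ S := by
      rw [hS, Nat.le_div_iff_mul_le hT'0]
      omega
    nlinarith
  have hS1 : 1 ≤ S := by
    by_contra hcon
    have : S = 0 := by omega
    rw [this] at hS2
    omega
  have hS0 : (0 : ℝ) < S := by exact_mod_cast hS1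
  have hS2r : (N : ℝ) < 2 * T' * S := by exact_mod_cast hS2
  have hTSW : T * (S * W) ≤ N := by
    refine le_trans ?_ hST
    rw [hT']
    nlinarith [Nat.zero_le (S * (n * W))]
  have hnSW : (n * S) * W ≤ N := by
    refine le_trans ?_ hST
    rw [hT']
    nlinarith [Nat.zero_le (S * (T * W))]
  have hgood := hvar S W N hTSW A hA hcard
  obtain ⟨M, hM⟩ : ∃ M, M = n * S := ⟨_, rfl⟩
  rw [← hM] at hgood hnSW
  have hMr : (M : ℝ) = n * S := by rw [hM]; push_cast; ring
  -- the sieving level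
  obtain ⟨z, hz⟩ : ∃ z, z = ⌊(N : ℝ) ^ κ⌋₊ := ⟨_, rfl⟩
  have hz3 : 3 ≤ z := by
    rw [hz]
    apply Nat.le_floor
    exact_mod_cast g1
  have hzN : (N : ℝ) ^ κ < z + 1 := by rw [hz]; exact Nat.lt_floor_add_one _
  have hzN' : (z : ℝ) ≤ (N : ℝ) ^ κ := by rw [hz]; exact Nat.floor_le (by positivity)
  have hzE : ((z : ℝ) ^ (4 * B + 6)) ^ (3 * 2 ^ (k + 1)) ≤ (N : ℝ) ^ (1 / 2 : ℝ) := by
    rw [← pow_mul, ← hE]
    calc (z : ℝ) ^ E ≤ ((N : ℝ) ^ κ) ^ E := pow_le_pow_left₀ (by positivity) hzN' _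
      _ = (N : ℝ) ^ (1 / 2 : ℝ) := by
          rw [← Real.rpow_natCast, ← Real.rpow_mul hN0.le]
          congr 1
          rw [hκ]
          have : (0 : ℝ) < E := by exact_mod_cast hE0
          field_simp
  have hsmall : 2 * ((2 * C) ^ (2 ^ (k + 1)) * (2 * g) ^ 2) / w +
        2 ^ (k + 2) * (k + 2) * ((z : ℝ) ^ (4 * B + 6)) ^ (3 * 2 ^ (k + 1)) / (2 * M + 1) ≤
        η ^ (2 ^ (k + 1)) := by
    rw [← hE1, ← hη']
    have h1 : 2 ^ (k + 2) * (k + 2) * ((z : ℝ) ^ (4 * B + 6)) ^ (3 * 2 ^ (k + 1)) / (2 * M + 1) ≤ η' / 2 := by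
      rw [div_le_iff₀ (by positivity)]
      have h2 : (N : ℝ) / (2 * T') ≤ 2 * M + 1 := by
        rw [div_le_iff₀ (by positivity), hMr]
        have : (S : ℝ) ≤ n * S := by
          have : (1 : ℝ) ≤ n := by exact_mod_cast hn1
          nlinarith
        nlinarith
      have h3 : (N : ℝ) ^ (1 / 2 : ℝ) * (N : ℝ) ^ (1 / 2 : ℝ) = N := by
        rw [← Real.rpow_add hN0]
        norm_num
      rw [div_le_iff₀ hη'0] at g3
      have h4 : (0 : ℝ) < (N : ℝ) ^ (1 / 2 : ℝ) := by positivity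
      have h5 : 2 ^ (k + 2) * ((k : ℝ) + 2) * (2 * T') * 2 * (N : ℝ) ^ (1 / 2 : ℝ) ≤ η' * N := by
        have := mul_le_mul_of_nonneg_right g3 h4.le
        calc _ ≤ (N : ℝ) ^ (1 / 2 : ℝ) * η' * (N : ℝ) ^ (1 / 2 : ℝ) := this
          _ = η' * ((N : ℝ) ^ (1 / 2 : ℝ) * (N : ℝ) ^ (1 / 2 : ℝ)) := by ring
          _ = _ := by rw [h3]
      calc 2 ^ (k + 2) * ((k : ℝ) + 2) * ((z : ℝ) ^ (4 * B + 6)) ^ (3 * 2 ^ (k + 1))
          ≤ 2 ^ (k + 2) * ((k : ℝ) + 2) * (N : ℝ) ^ (1 / 2 : ℝ) :=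
            mul_le_mul_of_nonneg_left hzE (by positivity)
        _ = (2 ^ (k + 2) * ((k : ℝ) + 2) * (2 * T') * 2 * (N : ℝ) ^ (1 / 2 : ℝ)) / (2 * T' * 2) := by
            field_simp
        _ ≤ (η' * N) / (2 * T' * 2) := div_le_div_of_nonneg_right h5 (by positivity)
        _ = η' / 2 * (N / (2 * T')) := by
            field_simp
        _ ≤ η' / 2 * (2 * M + 1) := mul_le_mul_of_nonneg_left h2 (by positivity)
    linarith
  -- the count
  have hmain := hcount (Fin d → ℤ) (TW f W) (TW_per f W) (fun p hp => (rho_TW f h0 W p hp).trans (hg.few p hp))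
    w z M η A (fun i => (W : ℤ) • v i) hw1 hw2 (by omega) hw3 (by rw [← hE1]; exact hw4) hη0.le hsmall
  have hAN : (A.card : ℝ) ≤ (N : ℝ) ^ d := by
    have := card_le_card hA
    rw [Fintype.card_piFinset] at this
    simp only [Int.card_Icc, prod_const, card_univ, Fintype.card_fin] at this
    have h2 : ((N : ℤ) + 1 - 1).toNat = N := by omega
    rw [h2] at this
    exact_mod_cast this
  obtain ⟨X1, hX1⟩ : ∃ X1 : ℝ, X1 = (((A ×ˢ Icc (1 : ℤ) M).filter
    (fun x => ∀ i, x.1 + x.2 • ((W : ℤ) • v i) ∈ A)).card : ℝ) := ⟨_, rfl⟩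
  obtain ⟨X2, hX2⟩ : ∃ X2 : ℝ, X2 = (((A ×ˢ Icc (1 : ℤ) M).filter
    (fun x => (∀ i, x.1 + x.2 • ((W : ℤ) • v i) ∈ A) ∧ Sft (TW f W) w z x.2)).card : ℝ) := ⟨_, rfl⟩
  rw [← hX1] at hmain hgood
  rw [← hX2] at hmain
  have hX1' : c1 * (N : ℝ) ^ d * S / 2 ≤ X1 - 3 * η * (A.card * (2 * M + 1)) := by
    have h1 : 3 * η * (A.card * (2 * M + 1)) ≤ c1 * (N : ℝ) ^ d * S / 2 := by
      have h2 : (2 * (M : ℝ) + 1) ≤ 3 * (n * S) := by
        rw [hMr]
        have h3 : (1 : ℝ) ≤ n * S := by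
          have a1 : (1 : ℝ) ≤ n := by exact_mod_cast hn1
          have a2 : (1 : ℝ) ≤ S := by exact_mod_cast hS1
          nlinarith
        linarith
      calc 3 * η * (A.card * (2 * M + 1)) ≤ 3 * η * ((N : ℝ) ^ d * (3 * (n * S))) := by
            apply mul_le_mul_of_nonneg_left _ (by positivity)
            exact mul_le_mul hAN h2 (by positivity) (by positivity)
        _ = c1 * (N : ℝ) ^ d * S / 2 := by
            rw [hη]
            field_simp
            ring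
    linarith
  have hVq : v0 / Real.log N ^ K ≤ ∏ p ∈ (Ioc w z).filter Nat.Prime, (1 - (rho (TW f W) p : ℝ) / p) := by
    refine le_trans ?_ (prod_ge_Vq f h0 W w z)
    refine le_trans ?_ (hV z hz3).1
    have h2 : (z : ℝ) ≤ N := by
      calc (z : ℝ) ≤ (N : ℝ) ^ κ := hzN'
        _ ≤ (N : ℝ) ^ (1 : ℝ) := Real.rpow_le_rpow_of_exponent_le hN1.le hκ1
        _ = N := Real.rpow_one _
    have h3 : 0 < Real.log z := Real.log_pos (by exact_mod_cast (by omega : 1 < z))
    have h4 : Real.log z ≤ Real.log N := Real.log_le_log (by exact_mod_cast (by omega : 0 < z)) h2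
    gcongr
  have hX2' : 2 * (c * (N : ℝ) ^ (d + 1) / Real.log N ^ K) ≤ X2 := by
    refine le_trans ?_ hmain
    calc 2 * (c * (N : ℝ) ^ (d + 1) / Real.log N ^ K) =
          (v0 / Real.log N ^ K) / 2 * (c1 * (N : ℝ) ^ d * (N / (2 * T')) / 2) := by
          rw [hc, pow_succ]
          field_simp
          norm_num
      _ ≤ (v0 / Real.log N ^ K) / 2 * (c1 * (N : ℝ) ^ d * S / 2) := by
          apply mul_le_mul_of_nonneg_left _ (by positivity)
          apply div_le_div_of_nonneg_right _ (by norm_num)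
          apply mul_le_mul_of_nonneg_left _ (by positivity)
          rw [div_le_iff₀ (by positivity)]
          linarith
      _ ≤ _ := by
          apply mul_le_mul _ hX1' (by positivity) _
          · linarith
          · have : 0 ≤ v0 / Real.log N ^ K := by positivity
            linarith
  -- the exceptional differences
  have hexc : ((((A ×ˢ Icc (1 : ℤ) M).filter (fun x => ∃ i, (f i).eval ((W : ℤ) * x.2) = 1 ∨
      (f i).eval ((W : ℤ) * x.2) = -1)).card : ℕ) : ℝ) ≤ c * (N : ℝ) ^ (d + 1) / Real.log N ^ K := by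
    have h1 : ((A ×ˢ Icc (1 : ℤ) M).filter (fun x => ∃ i, (f i).eval ((W : ℤ) * x.2) = 1 ∨
      (f i).eval ((W : ℤ) * x.2) = -1)).card ≤
        (A ×ˢ ((Icc (1 : ℤ) N).filter (fun n => ∃ i, (f i).eval n = 1 ∨ (f i).eval n = -1))).card := by
      apply card_le_card_of_injOn (fun x => (x.1, (W : ℤ) * x.2))
      · rintro ⟨x, m⟩ hx
        rw [mem_coe, mem_filter, mem_product, mem_Icc] at hx
        rw [mem_coe, mem_product, mem_filter, mem_Icc]
        obtain ⟨⟨h1, h2, h3⟩, h4⟩ := hx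
        refine ⟨h1, ⟨?_, ?_⟩, h4⟩
        · have : (1 : ℤ) ≤ W := by exact_mod_cast hW0
          simp only at h2 ⊢
          nlinarith
        · have h5 : ((M * W : ℕ) : ℤ) ≤ N := by exact_mod_cast hnSW
          push_cast at h5
          have : (0 : ℤ) ≤ W := by positivity
          simp only at h3 ⊢
          nlinarith
      · rintro ⟨x, m⟩ _ ⟨x', m'⟩ _ h
        simp only [Prod.mk.injEq] at h ⊢
        have : (W : ℤ) ≠ 0 := by exact_mod_cast hW0.ne'
        exact ⟨h.1, mul_left_cancel₀ this h.2⟩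
    rw [card_product] at h1
    have h2 : (A.card * ((Icc (1 : ℤ) N).filter (fun n => ∃ i, (f i).eval n = 1 ∨ (f i).eval n = -1)).card) ≤
        A.card * G := Nat.mul_le_mul_left _ (hG _)
    have h3 : ((((A ×ˢ Icc (1 : ℤ) M).filter (fun x => ∃ i, (f i).eval ((W : ℤ) * x.2) = 1 ∨
      (f i).eval ((W : ℤ) * x.2) = -1)).card : ℕ) : ℝ) ≤ A.card * G := by exact_mod_cast h1.trans h2
    refine h3.trans ?_
    rw [div_le_iff₀ hc0] at g4
    calc (A.card : ℝ) * G ≤ (N : ℝ) ^ d * G := mul_le_mul_of_nonneg_right hAN (by positivity)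
      _ ≤ (N : ℝ) ^ d * (N / Real.log N ^ K * c) := mul_le_mul_of_nonneg_left g4 (by positivity)
      _ = _ := by
          rw [pow_succ]
          ring
  -- the conclusion
  have hfin : ((A ×ˢ Icc (1 : ℤ) M).filter
      (fun x => (∀ i, x.1 + x.2 • ((W : ℤ) • v i) ∈ A) ∧ Sft (TW f W) w z x.2)).card ≤
      ((A ×ˢ Icc (1 : ℤ) N).filter (fun x => (∀ i, x.1 + x.2 • v i ∈ A) ∧
            Gd f ((N : ℝ) ^ κ) x.2)).card +
      ((A ×ˢ Icc (1 : ℤ) M).filter (fun x => ∃ i, (f i).eval ((W : ℤ) * x.2) = 1 ∨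
      (f i).eval ((W : ℤ) * x.2) = -1)).card := by
    rw [← card_filter_add_card_filter_not (s := (A ×ˢ Icc (1 : ℤ) M).filter
      (fun x => (∀ i, x.1 + x.2 • ((W : ℤ) • v i) ∈ A) ∧ Sft (TW f W) w z x.2))
      (fun x => ¬ ∃ i, (f i).eval ((W : ℤ) * x.2) = 1 ∨ (f i).eval ((W : ℤ) * x.2) = -1)]
    apply Nat.add_le_add
    · apply card_le_card_of_injOn (fun x => (x.1, (W : ℤ) * x.2))
      · rintro ⟨x, m⟩ hx
        rw [mem_coe, mem_filter, mem_filter, mem_product, mem_Icc] at hx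
        obtain ⟨⟨⟨h1, h2, h3⟩, h4, h5⟩, h6⟩ := hx
        simp only at h1 h2 h3 h4 h5 h6
        rw [mem_coe, mem_filter, mem_product, mem_Icc]
        refine ⟨⟨h1, ?_, ?_⟩, ?_, ?_⟩
        · have : (1 : ℤ) ≤ W := by exact_mod_cast hW0
          simp only
          nlinarith
        · have h5 : ((M * W : ℕ) : ℤ) ≤ N := by exact_mod_cast hnSW
          push_cast at h5
          have : (0 : ℤ) ≤ W := by positivity
          simp only
          nlinarith
        · intro i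
          have h7 := h4 i
          rw [smul_smul, mul_comm] at h7
          exact h7
        · -- no small prime factors
          have hnd : ∀ p : ℕ, p.Prime → p ≤ z → ∀ i, ¬ (p : ℤ) ∣ (f i).eval ((W : ℤ) * m) := by
            intro p hp hpz i hd
            rcases le_or_gt p w with hpw | hpw
            · refine not_dvd_of_unit (f i) (h0 i) p hp _ ?_ hd
              apply Dvd.dvd.mul_right
              rw [Int.natCast_dvd_natCast, hW]
              exact (Nat.Prime.dvd_primorial_iff hp).2 hpw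
            · exact h5 p hp hpw hpz ⟨i, hd⟩
          intro i
          push Not at h6
          obtain ⟨a1, a2⟩ := h6 i
          have a3 : (f i).eval ((W : ℤ) * m) ≠ 0 := by
            intro h
            apply hnd 2 Nat.prime_two (by omega) i
            rw [h]
            exact dvd_zero _
          refine ⟨?_, ?_⟩
          · by_contra hcon
            push Not at hcon
            rw [abs_le] at hcon
            simp only at hcon
            omega
          · intro p hp hd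
            by_contra hcon
            push Not at hcon
            have a4 : (p : ℝ) < z + 1 := lt_of_le_of_lt hcon hzN
            have a5 : p < z + 1 := by exact_mod_cast a4
            exact hnd p hp (by omega) i hd
      · rintro ⟨x, m⟩ _ ⟨x', m'⟩ _ h
        simp only [Prod.mk.injEq] at h ⊢
        have : (W : ℤ) ≠ 0 := by exact_mod_cast hW0.ne'
        exact ⟨h.1, mul_left_cancel₀ this h.2⟩
    · apply card_le_card
      intro x hx
      rw [mem_filter, mem_filter] at hx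
      rw [mem_filter]
      exact ⟨hx.1.1, not_not.1 hx.2⟩
  have hfin' : X2 ≤ (((A ×ˢ Icc (1 : ℤ) N).filter (fun x => (∀ i, x.1 + x.2 • v i ∈ A) ∧
            Gd f ((N : ℝ) ^ κ) x.2)).card : ℝ) +
      ((((A ×ˢ Icc (1 : ℤ) M).filter (fun x => ∃ i, (f i).eval ((W : ℤ) * x.2) = 1 ∨
      (f i).eval ((W : ℤ) * x.2) = -1)).card : ℕ) : ℝ) := by
    rw [hX2]
    exact_mod_cast hfin
  linarith

end Pool.Agent.H14.MS
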