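import Pool.Agent.H14.MS.Abs
import Pool.Graph.R_seed8.Helper256.KM.Mertens

/-!
# A lower bound for the sifting product (helper14)
-/

set_option autoImplicit false
set_option linter.unusedSectionVars false
set_option linter.deprecated false

namespace Pool.Agent.H14.MS

open Finset
open Pool.Agent.H14.SK (Pr rho Sft)

lemma one_sub_ge_exp (x : ℝ) (h0 : 0 ≤ x) (h1 : x ≤ 1 / 2) : Real.exp (-(x + 2 * x ^ 2)) ≤ 1 - x := by
  have h2 := Real.abs_log_sub_add_sum_range_le (x := x) (by rw [abs_of_nonneg h0]; linarith) 1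
  rw [sum_range_one, abs_of_nonneg h0] at h2
  norm_num at h2
  have h3 := (abs_le.1 h2).1
  have h4 : x ^ 2 / (1 - x) ≤ 2 * x ^ 2 := by
    rw [div_le_iff₀ (by linarith)]
    nlinarith [sq_nonneg x]
  have h5 : -(x + 2 * x ^ 2) ≤ Real.log (1 - x) := by linarith
  calc Real.exp (-(x + 2 * x ^ 2)) ≤ Real.exp (Real.log (1 - x)) := Real.exp_le_exp.2 h5
    _ = 1 - x := Real.exp_log (by linarith)

open Classical in
theorem VP_ge (g w : ℕ) (hgw : 2 * g ≤ w) : ∃ c : ℝ, 0 < c ∧ ∀ T : ℕ → ℤ → Prop,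
    (∀ p : ℕ, p.Prime → rho T p ≤ g) → (∀ p : ℕ, p.Prime → p ≤ w → ¬ T p 0) →
    ∀ N : ℕ, 3 ≤ N → c / Real.log N ^ g ≤ VP T N := by
  obtain ⟨C1, hC1⟩ := Pool.Agent.Helper256.KM.mertens_inv
  have hC10 : 0 ≤ C1 := (abs_nonneg _).trans (hC1 3 le_rfl)
  obtain ⟨P0, hP0⟩ : ∃ P0 : ℝ, P0 = ∏ p ∈ (range (w + 1)).filter Nat.Prime, (1 / (p : ℝ)) := ⟨_, rfl⟩
  have hP00 : 0 < P0 := by
    rw [hP0]
    apply prod_pos
    intro p hp
    have := (mem_filter.1 hp).2.pos
    positivity
  refine ⟨P0 * Real.exp (-(g * C1 + 2 * g ^ 2)), by positivity, ?_⟩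
  intro T hρ h0 N hN
  have hL0 : 0 < Real.log N := Real.log_pos (by exact_mod_cast (by omega : 1 < N))
  have hsplit : VP T N = (∏ p ∈ (range (N + 1)).filter (fun p => p.Prime ∧ p ≤ w), (1 - (rho T p : ℝ) / p)) *
      ∏ p ∈ (range (N + 1)).filter (fun p => p.Prime ∧ ¬ p ≤ w), (1 - (rho T p : ℝ) / p) := by
    unfold VP
    rw [← prod_filter_mul_prod_filter_not ((range (N + 1)).filter Nat.Prime) (fun p => p ≤ w),
      filter_filter, filter_filter]
  have h1 : P0 ≤ ∏ p ∈ (range (N + 1)).filter (fun p => p.Prime ∧ p ≤ w), (1 - (rho T p : ℝ) / p) := by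
    have h2 : ∏ p ∈ (range (N + 1)).filter (fun p => p.Prime ∧ p ≤ w), (1 / (p : ℝ)) ≤
        ∏ p ∈ (range (N + 1)).filter (fun p => p.Prime ∧ p ≤ w), (1 - (rho T p : ℝ) / p) := by
      apply Finset.prod_le_prod
      · intro p _
        positivity
      · intro p hp
        obtain ⟨_, hpp, hpw⟩ := mem_filter.1 hp
        have hp0 : (0 : ℝ) < p := by exact_mod_cast hpp.pos
        have h3 : rho T p ≤ p - 1 := by
          unfold rho
          have h4 : (range p).filter (fun r : ℕ => T p r) ⊆ (range p).erase 0 := by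
            intro r hr
            rw [mem_filter] at hr
            rw [mem_erase]
            refine ⟨?_, hr.1⟩
            intro h5
            apply h0 p hpp hpw
            have := hr.2
            rw [h5] at this
            simpa using this
          refine (card_le_card h4).trans ?_
          rw [card_erase_of_mem (mem_range.2 hpp.pos), card_range]
        have h4 : (rho T p : ℝ) ≤ p - 1 := by
          have h5 : rho T p + 1 ≤ p := by
            have := hpp.pos
            omega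
          have h6 : ((rho T p + 1 : ℕ) : ℝ) ≤ p := by exact_mod_cast h5
          push_cast at h6
          linarith
        rw [le_sub_iff_add_le, ← add_div, div_le_one hp0]
        linarith
    refine le_trans ?_ h2
    rw [hP0]
    have hsub : (range (N + 1)).filter (fun p => p.Prime ∧ p ≤ w) ⊆ (range (w + 1)).filter Nat.Prime := by
      intro p hp
      obtain ⟨_, hpp, hpw⟩ := mem_filter.1 hp
      rw [mem_filter, mem_range]
      exact ⟨by omega, hpp⟩
    rw [← prod_sdiff hsub]
    apply mul_le_of_le_one_left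
    · exact prod_nonneg fun _ _ => by positivity
    · apply Finset.prod_le_one
      · intro _ _
        positivity
      · intro p hp
        have hpp := (mem_filter.1 (mem_sdiff.1 hp).1).2
        rw [div_le_one (by exact_mod_cast hpp.pos)]
        exact_mod_cast hpp.one_lt.le
  have h2 : Real.exp (-(g * C1 + 2 * g ^ 2)) / Real.log N ^ g ≤
      ∏ p ∈ (range (N + 1)).filter (fun p => p.Prime ∧ ¬ p ≤ w), (1 - (rho T p : ℝ) / p) := by
    obtain ⟨R, hR⟩ : ∃ R, R = (range (N + 1)).filter (fun p => p.Prime ∧ ¬ p ≤ w) := ⟨_, rfl⟩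
    rw [← hR]
    have hRm : ∀ p ∈ R, p.Prime ∧ w < p := by
      intro p hp
      rw [hR, mem_filter] at hp
      exact ⟨hp.2.1, by omega⟩
    have h3 : ∏ p ∈ R, Real.exp (-((g : ℝ) / p + 2 * ((g : ℝ) / p) ^ 2)) ≤
        ∏ p ∈ R, (1 - (rho T p : ℝ) / p) := by
      apply Finset.prod_le_prod (fun _ _ => (Real.exp_pos _).le)
      intro p hp
      obtain ⟨hpp, hpw⟩ := hRm p hp
      have hp0 : (0 : ℝ) < p := by exact_mod_cast hpp.pos
      have h4 : (g : ℝ) / p ≤ 1 / 2 := by
        rw [div_le_div_iff₀ hp0 (by norm_num)]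
        have : (2 * g : ℝ) ≤ p := by exact_mod_cast (by omega : 2 * g ≤ p)
        linarith
      refine (one_sub_ge_exp _ (by positivity) h4).trans ?_
      have h5 : (rho T p : ℝ) / p ≤ (g : ℝ) / p := by
        apply div_le_div_of_nonneg_right _ hp0.le
        exact_mod_cast hρ p hpp
      linarith
    refine le_trans ?_ h3
    rw [← Real.exp_sum]
    have h4 : ∑ p ∈ R, 1 / (p : ℝ) ≤ Real.log (Real.log N) + C1 := by
      have h5 := (abs_le.1 (hC1 N hN)).2
      have h6 : ∑ p ∈ R, 1 / (p : ℝ) ≤ ∑ p ∈ (Icc 1 N).filter Nat.Prime, (1 : ℝ) / p := by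
        apply sum_le_sum_of_subset_of_nonneg
        · intro p hp
          obtain ⟨hpp, _⟩ := hRm p hp
          rw [hR, mem_filter, mem_range] at hp
          rw [mem_filter, mem_Icc]
          exact ⟨⟨hpp.pos, by omega⟩, hpp⟩
        · intro _ _ _
          positivity
      linarith
    have h5 : ∑ p ∈ R, 1 / (p : ℝ) ^ 2 ≤ 1 := by
      have := sum_inv_sq_le 1 le_rfl R (fun p hp => (hRm p hp).1.one_lt)
      simpa using this
    have h6 : Real.exp (-(g * C1 + 2 * g ^ 2)) / Real.log N ^ g =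
        Real.exp (-(g * C1 + 2 * g ^ 2) - g * Real.log (Real.log N)) := by
      rw [Real.exp_sub, Real.exp_nat_mul, Real.exp_log hL0]
    rw [h6]
    apply Real.exp_le_exp.2
    have h7 : ∑ p ∈ R, (-((g : ℝ) / p + 2 * ((g : ℝ) / p) ^ 2)) =
        -(g * ∑ p ∈ R, 1 / (p : ℝ)) - 2 * g ^ 2 * ∑ p ∈ R, 1 / (p : ℝ) ^ 2 := by
      rw [mul_sum, mul_sum, ← sum_neg_distrib, ← sum_sub_distrib]
      apply sum_congr rfl
      intro p _
      ring
    rw [h7]
    have h8 := mul_le_mul_of_nonneg_left h4 (Nat.cast_nonneg (α := ℝ) g)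
    have h9 := mul_le_mul_of_nonneg_left h5 (show (0 : ℝ) ≤ 2 * g ^ 2 by positivity)
    nlinarith
  rw [hsplit, mul_div_assoc]
  exact mul_le_mul h1 h2 (by positivity) (hP00.le.trans h1)

end Pool.Agent.H14.MS
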