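import Pool.Agent.H14.SK.Shift2

/-!
# Patterns with a shifted sifted difference (helper14)
-/

set_option autoImplicit false
set_option linter.unusedSectionVars false
set_option linter.deprecated false

namespace Pool.Agent.H14.MS

open Finset
open Pool.Agent.H14.SK (rho Sh Sh_per rho_Sh exists_shift)

open Classical in
lemma VP_Sh (T : ℕ → ℤ → Prop) (hT : ∀ p : ℕ, ∀ n m : ℤ, (p : ℤ) ∣ n - m → (T p n ↔ T p m)) (h : ℤ)
    (y : ℕ) : VP (Sh T h) y = VP T y := by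
  unfold VP
  apply prod_congr rfl
  intro p hp
  rw [rho_Sh T hT h p (mem_filter.1 hp).2.pos]

open Classical in
/-- **Patterns with a sifted shifted common difference, arbitrary sieve conditions without local obstruction.** -/
theorem patterns_shift (g k : ℕ) :
    ∃ κ : ℝ, 0 < κ ∧ ∀ (d : ℕ) (v : Fin k → Fin d → ℤ) (δ : ℝ), 0 < δ → ∃ (H : ℕ) (c : ℝ), 0 < c ∧
      ∃ N₀ : ℕ, ∀ N : ℕ, N₀ ≤ N → ∀ T : ℕ → ℤ → Prop,
        (∀ p : ℕ, ∀ n m : ℤ, (p : ℤ) ∣ n - m → (T p n ↔ T p m)) → (∀ p : ℕ, p.Prime → rho T p ≤ g) →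
        (∀ p : ℕ, p.Prime → ∃ n : ℤ, ¬ T p n) →
        ∃ h : ℕ, h ≤ H ∧ ∀ A ⊆ Fintype.piFinset (fun _ : Fin d => Icc (1 : ℤ) N),
        δ * (N : ℝ) ^ d ≤ A.card →
        c * (N : ℝ) ^ (d + 1) / Real.log N ^ g ≤
          (((A ×ˢ Icc (1 : ℤ) N).filter (fun x => (∀ i, x.1 + x.2 • v i ∈ A) ∧
            ∀ p : ℕ, p.Prime → (p : ℝ) ≤ (N : ℝ) ^ κ → ¬ T p (x.2 + h))).card : ℝ) := by
  obtain ⟨κ, hκ, hpat⟩ := patterns_abs g k
  refine ⟨κ, hκ, ?_⟩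
  intro d v δ hδ
  obtain ⟨w, c1, hw, hc1, N0, hN0⟩ := hpat d v δ hδ
  obtain ⟨c2, hc2, hVP⟩ := VP_ge g w hw
  refine ⟨primorial w, c1 * c2, by positivity, max N0 3, ?_⟩
  intro N hN T hT hρ hadm
  have hN3 : 3 ≤ N := (le_max_right _ _).trans hN
  obtain ⟨h, h1, h2⟩ := exists_shift T hT w (fun p hp _ => hadm p hp)
  refine ⟨h, h1.le, ?_⟩
  intro A hA hAδ
  have hρ' : ∀ p : ℕ, p.Prime → rho (Sh T h) p ≤ g := fun p hp => by
    rw [rho_Sh T hT h p hp.pos]; exact hρ p hp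
  have h0 : ∀ p : ℕ, p.Prime → p ≤ w → ¬ Sh T h p 0 := by
    intro p hp hpw
    unfold Sh
    rw [zero_add]
    exact h2 p hp hpw
  have hmain := hN0 N ((le_max_left _ _).trans hN) (Sh T h) (Sh_per T hT h) hρ' h0 A hA hAδ
  refine le_trans ?_ hmain
  have h3 := hVP (Sh T h) hρ' h0 N hN3
  calc c1 * c2 * (N : ℝ) ^ (d + 1) / Real.log N ^ g
      = c1 * (N : ℝ) ^ (d + 1) * (c2 / Real.log N ^ g) := by ring
    _ ≤ c1 * (N : ℝ) ^ (d + 1) * VP (Sh T h) N := by gcongr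

end Pool.Agent.H14.MS
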