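import Mathlib
import Pool.Graph.R_seed8.Helper868.DHJ

/-!
# Many homothetic copies in dense sets of lattice points (helper14)
-/

set_option autoImplicit false
set_option linter.unusedSectionVars false
set_option linter.deprecated false

namespace Pool.Agent.H14.MS

open Finset
open Pool.Agent.Helper868.DHJ (DensityHJ LineFree pt dens ind av density_hales_jewett)

/-- the vectors of the pattern, with `0` -/
def vv {k d : ℕ} (v : Fin k → Fin d → ℤ) : Option (Fin k) → (Fin d → ℤ)
  | none => 0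
  | some i => v i

/-- the sums of vectors -/
def shf {k d n : ℕ} (v : Fin k → Fin d → ℤ) (a : Fin n → Option (Fin k)) : Fin d → ℤ := ∑ i, vv v (a i)

lemma pow_le_two (N R d : ℕ) (h : 4 * d * R ≤ N) : ((N + 2 * R : ℕ) : ℝ) ^ d ≤ 2 * (N : ℝ) ^ d := by
  rcases Nat.eq_zero_or_pos d with hd | hd
  · subst hd
    norm_num
  rcases Nat.eq_zero_or_pos N with hN | hN
  · subst hN
    have hR : R = 0 := by
      by_contra hR
      have : 0 < 4 * d * R := by positivity
      omega
    subst hR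
    simp [hd.ne']
  have hN0 : (0 : ℝ) < N := by exact_mod_cast hN
  have hd0 : (0 : ℝ) < d := by exact_mod_cast hd
  have h1 : (4 * d * R : ℝ) ≤ N := by exact_mod_cast h
  have h2 : ((N + 2 * R : ℕ) : ℝ) = N * (1 + 2 * R / N) := by
    push_cast
    field_simp
  rw [h2, mul_pow, mul_comm]
  apply mul_le_mul_of_nonneg_right _ (by positivity)
  have h3 : (1 + 2 * (R : ℝ) / N) ^ d ≤ Real.exp (1 / 2) := by
    calc (1 + 2 * (R : ℝ) / N) ^ d ≤ (Real.exp (2 * R / N)) ^ d := by
          apply pow_le_pow_left₀ (by positivity)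
          have := Real.add_one_le_exp (2 * (R : ℝ) / N)
          linarith
      _ = Real.exp (d * (2 * R / N)) := by rw [← Real.exp_nat_mul]
      _ ≤ Real.exp (1 / 2) := by
          apply Real.exp_le_exp.2
          rw [mul_div_assoc', div_le_div_iff₀ hN0 (by norm_num)]
          linarith
  have h4 : Real.exp (1 / 2) ≤ 2 := by
    have h5 : Real.exp (1 / 2) * Real.exp (1 / 2) = Real.exp 1 := by
      rw [← Real.exp_add]
      norm_num
    have := Real.exp_one_lt_d9
    have h6 := Real.exp_pos (1 / 2 : ℝ)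
    by_contra hcon
    push Not at hcon
    nlinarith
  linarith

theorem var {k d : ℕ} (v : Fin k → Fin d → ℤ) (δ : ℝ) (hδ : 0 < δ) :
    ∃ (n T : ℕ) (c : ℝ), 1 ≤ n ∧ 0 < c ∧ ∀ (S W N : ℕ), T * (S * W) ≤ N →
      ∀ A ⊆ Fintype.piFinset (fun _ : Fin d => Icc (1 : ℤ) N), δ * (N : ℝ) ^ d ≤ A.card →
        c * (N : ℝ) ^ d * S ≤ (((A ×ˢ Icc (1 : ℤ) (n * S : ℕ)).filter
          (fun x => ∀ i, x.1 + x.2 • ((W : ℤ) • v i) ∈ A)).card : ℝ) := by
  classical
  obtain ⟨n0, hn0⟩ := density_hales_jewett (Option (Fin k)) (δ / 4) (by positivity)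
  obtain ⟨n, hn⟩ : ∃ n, n = n0 + 1 := ⟨_, rfl⟩
  obtain ⟨V, hV⟩ : ∃ V : ℕ, V = ∑ i, ∑ j, (v i j).natAbs := ⟨_, rfl⟩
  have hVle : ∀ b j, |vv v b j| ≤ V := by
    intro b j
    rcases b with _ | i
    · simp [vv]
    · have h1 : (v i j).natAbs ≤ ∑ j, (v i j).natAbs := single_le_sum (f := fun j => (v i j).natAbs)
        (fun _ _ => Nat.zero_le _) (mem_univ j)
      have h2 : ∑ j, (v i j).natAbs ≤ V := by
        rw [hV]
        exact single_le_sum (f := fun i => ∑ j, (v i j).natAbs) (fun _ _ => Nat.zero_le _) (mem_univ i)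
      show |v i j| ≤ V
      rw [Int.abs_eq_natAbs]
      exact_mod_cast h1.trans h2
  have hsh : ∀ (a : Fin n → Option (Fin k)) j, |shf v a j| ≤ n * V := by
    intro a j
    unfold shf
    rw [Finset.sum_apply]
    calc |∑ i, vv v (a i) j| ≤ ∑ i, |vv v (a i) j| := abs_sum_le_sum_abs _ _
      _ ≤ ∑ _i : Fin n, (V : ℤ) := sum_le_sum fun i _ => hVle _ _
      _ = n * V := by
          rw [sum_const, card_univ, Fintype.card_fin, nsmul_eq_mul]
  refine ⟨n, 4 * d * (n * V), δ / 2 / (k + 2) ^ n, by omega, by positivity, ?_⟩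
  intro S W N hT A hA hcard
  obtain ⟨R, hR⟩ : ∃ R : ℕ, R = S * W * (n * V) := ⟨_, rfl⟩
  have hRN : 4 * d * R ≤ N := by
    rw [hR]
    calc 4 * d * (S * W * (n * V)) = 4 * d * (n * V) * (S * W) := by ring
      _ ≤ N := hT
  obtain ⟨Bp, hBp⟩ : ∃ Bp : Finset (Fin d → ℤ), Bp =
    Fintype.piFinset (fun _ : Fin d => Icc (1 - (R : ℤ)) (N + R)) := ⟨_, rfl⟩
  have hBpc : (Bp.card : ℝ) ≤ 2 * (N : ℝ) ^ d := by
    have : Bp.card = (N + 2 * R) ^ d := by
      rw [hBp, Fintype.card_piFinset]
      simp only [Int.card_Icc, prod_const, card_univ, Fintype.card_fin]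
      congr 1
      omega
    rw [this, Nat.cast_pow]
    exact pow_le_two N R d hRN
  -- the translate of a point of `A`
  have hback : ∀ s ∈ Icc 1 S, ∀ a : Fin n → Option (Fin k), ∀ y ∈ A,
      y - ((s * W : ℕ) : ℤ) • shf v a ∈ Bp := by
    intro s hs a y hy
    rw [mem_Icc] at hs
    have h1 := hA hy
    rw [Fintype.mem_piFinset] at h1
    rw [hBp, Fintype.mem_piFinset]
    intro j
    have h2 := h1 j
    rw [mem_Icc] at h2 ⊢
    have h3 := abs_le.1 (hsh a j)
    have h4 : |((s * W : ℕ) : ℤ) * shf v a j| ≤ R := by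
      rw [abs_mul, hR]
      push_cast
      have h5 : |(s : ℤ) * W| ≤ S * W := by
        rw [abs_of_nonneg (by positivity)]
        exact mul_le_mul_of_nonneg_right (by exact_mod_cast hs.2) (by positivity)
      exact mul_le_mul h5 (hsh a j) (abs_nonneg _) (by positivity)
    have h5 := abs_le.1 h4
    have h6 : (y - ((s * W : ℕ) : ℤ) • shf v a) j = y j - ((s * W : ℕ) : ℤ) * shf v a j := by
      simp [Pi.sub_apply]
    rw [h6]
    constructor <;> linarith
  obtain ⟨E, hE⟩ : ∃ E : ℕ → (Fin d → ℤ) → Set (Fin n → Option (Fin k)), E = fun s x =>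
    {a | x + ((s * W : ℕ) : ℤ) • shf v a ∈ A} := ⟨_, rfl⟩
  have hcardα : (0 : ℝ) < (Fintype.card (Fin n → Option (Fin k)) : ℝ) := by
    exact_mod_cast Fintype.card_pos
  have hdens : ∀ s ∈ Icc 1 S, ∑ x ∈ Bp, dens (E s x) = A.card := by
    intro s hs
    unfold Pool.Agent.Helper868.DHJ.dens
    simp only [Pool.Agent.Helper868.DHJ.av_eq_sum]
    rw [← sum_div, div_eq_iff hcardα.ne', sum_comm]
    have h1 : ∀ a ∈ (univ : Finset (Fin n → Option (Fin k))), ∑ x ∈ Bp, ind (E s x) a = (A.card : ℝ) := by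
      intro a _
      have h2 : ∀ x ∈ Bp, ind (E s x) a = if x + ((s * W : ℕ) : ℤ) • shf v a ∈ A then (1 : ℝ) else 0 := by
        intro x _
        by_cases h : x + ((s * W : ℕ) : ℤ) • shf v a ∈ A
        · rw [if_pos h, Pool.Agent.Helper868.DHJ.ind_mem (by rw [hE]; exact h)]
        · rw [if_neg h, Pool.Agent.Helper868.DHJ.ind_not_mem (by rw [hE]; exact h)]
      rw [sum_congr rfl h2, ← sum_filter, sum_const, nsmul_eq_mul, mul_one, Nat.cast_inj]
      symm
      apply card_bij' (fun y _ => y - ((s * W : ℕ) : ℤ) • shf v a)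
        (fun x _ => x + ((s * W : ℕ) : ℤ) • shf v a)
      · intro y hy
        rw [mem_filter]
        exact ⟨hback s hs a y hy, by rwa [sub_add_cancel]⟩
      · intro x hx
        exact (mem_filter.1 hx).2
      · intro y _
        rw [sub_add_cancel]
      · intro x _
        rw [add_sub_cancel_right]
    rw [sum_congr rfl h1, sum_const, nsmul_eq_mul, card_univ]
    ring
  -- the good points
  have hgood : ∀ s ∈ Icc 1 S, δ / 2 * (N : ℝ) ^ d ≤
      ((Bp.filter (fun x => δ / 4 ≤ dens (E s x))).card : ℝ) := by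
    intro s hs
    have h1 := hdens s hs
    rw [← sum_filter_add_sum_filter_not Bp (fun x => δ / 4 ≤ dens (E s x))] at h1
    have h2 : ∑ x ∈ Bp.filter (fun x => δ / 4 ≤ dens (E s x)), dens (E s x) ≤
        ((Bp.filter (fun x => δ / 4 ≤ dens (E s x))).card : ℝ) := by
      calc ∑ x ∈ Bp.filter (fun x => δ / 4 ≤ dens (E s x)), dens (E s x) ≤
            ∑ x ∈ Bp.filter (fun x => δ / 4 ≤ dens (E s x)), (1 : ℝ) := by
            apply sum_le_sum
            intro x _
            unfold Pool.Agent.Helper868.DHJ.dens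
            rw [Pool.Agent.Helper868.DHJ.av_eq_sum, div_le_one hcardα]
            calc ∑ a, ind (E s x) a ≤ ∑ _a : Fin n → Option (Fin k), (1 : ℝ) := by
                  apply sum_le_sum
                  intro a _
                  by_cases h : a ∈ E s x
                  · rw [Pool.Agent.Helper868.DHJ.ind_mem h]
                  · rw [Pool.Agent.Helper868.DHJ.ind_not_mem h]
                    norm_num
              _ = _ := by rw [sum_const, card_univ, nsmul_eq_mul, mul_one]
        _ = _ := by rw [sum_const, nsmul_eq_mul, mul_one]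
    have h3 : ∑ x ∈ Bp.filter (fun x => ¬ δ / 4 ≤ dens (E s x)), dens (E s x) ≤ δ / 4 * Bp.card := by
      calc ∑ x ∈ Bp.filter (fun x => ¬ δ / 4 ≤ dens (E s x)), dens (E s x) ≤
            ∑ x ∈ Bp.filter (fun x => ¬ δ / 4 ≤ dens (E s x)), δ / 4 := by
            apply sum_le_sum
            intro x hx
            exact (not_le.1 (mem_filter.1 hx).2).le
        _ ≤ ∑ x ∈ Bp, δ / 4 :=
            sum_le_sum_of_subset_of_nonneg (filter_subset _ _) fun _ _ _ => by positivity
        _ = _ := by rw [sum_const, nsmul_eq_mul]; ring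
    have h4 := mul_le_mul_of_nonneg_left hBpc (show 0 ≤ δ / 4 by positivity)
    linarith
  -- the lines
  have hline : ∀ s ∈ Icc 1 S, ∀ x, δ / 4 ≤ dens (E s x) →
      ∃ u : Fin n → Option (Option (Fin k)), (∃ i, u i = none) ∧ ∀ b, pt u b ∈ E s x := by
    intro s _ x hx
    have hnot : ¬ LineFree (E s x) := by
      intro hlf
      have := hn0 (Fin n) (by rw [Fintype.card_fin]; omega) _ hlf
      linarith
    unfold LineFree at hnot
    push Not at hnot
    obtain ⟨u, h1, h2⟩ := hnot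
    exact ⟨u, h1, h2⟩
  choose! U hU using hline
  obtain ⟨tt, htt⟩ : ∃ tt : (Fin n → Option (Option (Fin k))) → ℕ, tt = fun u =>
    (univ.filter (fun i => u i = none)).card := ⟨_, rfl⟩
  obtain ⟨fx, hfx⟩ : ∃ fx : (Fin n → Option (Option (Fin k))) → (Fin d → ℤ), fx = fun u =>
    ∑ i ∈ univ.filter (fun i => ¬ u i = none), vv v ((u i).getD none) := ⟨_, rfl⟩
  have hpt : ∀ u b, shf v (pt u b) = fx u + (tt u : ℤ) • vv v b := by
    intro u b
    unfold shf
    rw [← sum_filter_add_sum_filter_not univ (fun i => u i = none), add_comm]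
    congr 1
    · rw [hfx]
      apply sum_congr rfl
      intro i hi
      have h1 := (mem_filter.1 hi).2
      cases h : u i with
      | none => exact absurd h h1
      | some a => simp [pt, h]
    · have h1 : ∀ i ∈ univ.filter (fun i => u i = none), vv v (pt u b i) = vv v b := by
        intro i hi
        have h1 := (mem_filter.1 hi).2
        simp [pt, h1]
      rw [sum_congr rfl h1, sum_const, htt]
      simp
  have htt1 : ∀ u, (∃ i, u i = none) → 1 ≤ tt u := by
    rintro u ⟨i, hi⟩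
    rw [htt]
    exact card_pos.2 ⟨i, by simp [hi]⟩
  have httn : ∀ u, tt u ≤ n := by
    intro u
    rw [htt]
    refine (card_filter_le _ _).trans ?_
    rw [card_univ, Fintype.card_fin]
  -- the injection
  obtain ⟨G, hG⟩ : ∃ G : Finset (ℕ × (Fin d → ℤ)), G = (Icc 1 S).biUnion (fun s =>
    (Bp.filter (fun x => δ / 4 ≤ dens (E s x))).image (fun x => (s, x))) := ⟨_, rfl⟩
  have hGc : δ / 2 * (N : ℝ) ^ d * S ≤ (G.card : ℝ) := by
    rw [hG, card_biUnion]
    · have h1 : ∀ s ∈ Icc 1 S, ((Bp.filter (fun x => δ / 4 ≤ dens (E s x))).image (fun x => (s, x))).card =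
          (Bp.filter (fun x => δ / 4 ≤ dens (E s x))).card := by
        intro s _
        apply card_image_of_injective
        intro x y h
        exact (Prod.mk.inj h).2
      rw [sum_congr rfl h1, Nat.cast_sum]
      calc δ / 2 * (N : ℝ) ^ d * S = ∑ _s ∈ Icc 1 S, δ / 2 * (N : ℝ) ^ d := by
            rw [sum_const, Nat.card_Icc, Nat.add_sub_cancel, nsmul_eq_mul]
            ring
        _ ≤ _ := sum_le_sum hgood
    · intro s _ s' _ hss
      show Disjoint _ _
      rw [Finset.disjoint_left]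
      intro x hx hx'
      rw [mem_image] at hx hx'
      obtain ⟨y, _, rfl⟩ := hx
      obtain ⟨y', _, h⟩ := hx'
      exact hss (Prod.mk.inj h).1.symm
  have hinj : G.card ≤ ((univ : Finset (Fin n → Option (Option (Fin k)))) ×ˢ
      ((A ×ˢ Icc (1 : ℤ) (n * S : ℕ)).filter (fun x => ∀ i, x.1 + x.2 • ((W : ℤ) • v i) ∈ A))).card := by
    apply card_le_card_of_injOn (fun x => (U x.1 x.2, (x.2 + ((x.1 * W : ℕ) : ℤ) • fx (U x.1 x.2),
      ((x.1 * tt (U x.1 x.2) : ℕ) : ℤ))))
    · rintro ⟨s, x⟩ hx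
      rw [mem_coe, hG, mem_biUnion] at hx
      obtain ⟨s', hs', hx⟩ := hx
      rw [mem_image] at hx
      obtain ⟨x', hx', he⟩ := hx
      obtain ⟨rfl, rfl⟩ := Prod.mk.inj he
      obtain ⟨h1, h2⟩ := hU s' hs' x' (mem_filter.1 hx').2
      have hs1 := (mem_Icc.1 hs').1
      have hs2 := (mem_Icc.1 hs').2
      have h3 : ∀ b, x' + ((s' * W : ℕ) : ℤ) • fx (U s' x') +
          ((s' * tt (U s' x') : ℕ) : ℤ) • ((W : ℤ) • vv v b) ∈ A := by
        intro b
        have h4 := h2 b
        rw [hE] at h4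
        have h5 : x' + ((s' * W : ℕ) : ℤ) • shf v (pt (U s' x') b) ∈ A := h4
        rw [hpt] at h5
        convert h5 using 1
        rw [smul_add, add_assoc, smul_smul, smul_smul]
        congr 3
        push_cast
        ring
      simp only [mem_coe, mem_product, mem_univ, true_and, mem_filter, mem_Icc]
      refine ⟨⟨?_, ?_, ?_⟩, fun i => h3 (some i)⟩
      · have := h3 none
        simpa [vv] using this
      · have := htt1 _ h1
        exact_mod_cast Nat.mul_pos hs1 this
      · have := httn (U s' x')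
        have h6 : s' * tt (U s' x') ≤ n * S := by
          rw [mul_comm n S]
          exact Nat.mul_le_mul hs2 this
        exact_mod_cast h6
    · rintro ⟨s, x⟩ hx ⟨s', x'⟩ hx' h
      simp only [Prod.mk.injEq] at h
      obtain ⟨h1, h2, h3⟩ := h
      rw [mem_coe, hG, mem_biUnion] at hx
      obtain ⟨s1, hs1, hx⟩ := hx
      rw [mem_image] at hx
      obtain ⟨x1, hx1, he⟩ := hx
      obtain ⟨rfl, rfl⟩ := Prod.mk.inj he
      have h4 := htt1 _ (hU s1 hs1 x1 (mem_filter.1 hx1).2).1
      rw [← h1] at h2 h3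
      have h5 : s1 = s' := by
        have h6 : s1 * tt (U s1 x1) = s' * tt (U s1 x1) := by exact_mod_cast h3
        exact Nat.eq_of_mul_eq_mul_right h4 h6
      subst h5
      rw [Prod.mk.injEq]
      exact ⟨rfl, add_right_cancel h2⟩
  rw [card_product, card_univ, Fintype.card_fun, Fintype.card_option, Fintype.card_option,
    Fintype.card_fin, Fintype.card_fin] at hinj
  have h5 : (G.card : ℝ) ≤ ((k : ℝ) + 2) ^ n * (((A ×ˢ Icc (1 : ℤ) (n * S : ℕ)).filter
      (fun x => ∀ i, x.1 + x.2 • ((W : ℤ) • v i) ∈ A)).card : ℝ) := by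
    have h6 : (G.card : ℝ) ≤ (((k + 1 + 1) ^ n * ((A ×ˢ Icc (1 : ℤ) (n * S : ℕ)).filter
      (fun x => ∀ i, x.1 + x.2 • ((W : ℤ) • v i) ∈ A)).card : ℕ) : ℝ) := by exact_mod_cast hinj
    refine h6.trans (le_of_eq ?_)
    push_cast
    ring
  have h7 := hGc.trans h5
  have h8 : δ / 2 / ((k : ℝ) + 2) ^ n * (N : ℝ) ^ d * S = (δ / 2 * (N : ℝ) ^ d * S) / ((k : ℝ) + 2) ^ n := by
    ring
  rw [h8, div_le_iff₀ (by positivity)]
  linarith

end Pool.Agent.H14.MS
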