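import Pool.Agent.H14.SK.Coef
import Pool.Agent.H14.MS.Corr
import Pool.Agent.H14.MS.GCS
import Pool.Agent.H14.MS.Var

/-!
# Patterns with a sifted common difference (helper14)
-/

set_option autoImplicit false
set_option linter.unusedSectionVars false
set_option linter.deprecated false

namespace Pool.Agent.H14.MS

open Finset
open Pool.Agent.H14.SK (Pr Pr_pos Pr_union prime_dvd_Pr rho Sft sieve_exists)

/-- the balanced variables -/
noncomputable def yb (T : ℕ → ℤ → Prop) [∀ p n, Decidable (T p n)] (p : ℕ) (n : ℤ) : ℝ :=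
  (if T p n then (1 : ℝ) else 0) - (rho T p : ℝ) / p

lemma bal_yb (T : ℕ → ℤ → Prop) [∀ p n, Decidable (T p n)]
    (hT : ∀ p : ℕ, ∀ n m : ℤ, (p : ℤ) ∣ n - m → (T p n ↔ T p m)) (P : Finset ℕ)
    (hP : ∀ p ∈ P, p.Prime) (g : ℕ) (hg : ∀ p : ℕ, p.Prime → rho T p ≤ g) :
    Bal P (2 * g) (yb T) := by
  have hle : ∀ p ∈ P, (rho T p : ℝ) / p ≤ 1 := by
    intro p hp
    have hp0 : (0 : ℝ) < p := by exact_mod_cast (hP p hp).pos
    rw [div_le_one hp0]
    have : rho T p ≤ p := by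
      unfold rho
      exact (card_filter_le _ _).trans (card_range p).le
    exact_mod_cast this
  have hge : ∀ p, 0 ≤ (rho T p : ℝ) / p := fun p => by positivity
  refine ⟨hP, ?_, ?_, ?_, ?_⟩
  · intro p _ n m h
    unfold yb
    congr 1
    exact if_congr (hT p n m h) rfl rfl
  · intro p hp n
    have h1 := hle p hp
    have h2 := hge p
    unfold yb
    rw [abs_le]
    split_ifs <;> constructor <;> linarith
  · intro p hp
    have hp0 : (0 : ℝ) < p := by exact_mod_cast (hP p hp).pos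
    unfold yb
    rw [sum_sub_distrib, sum_const, card_range, nsmul_eq_mul, ← sum_filter, sum_const, nsmul_eq_mul,
      mul_one, mul_div_cancel₀ _ hp0.ne']
    unfold rho
    exact sub_self _
  · intro p hp
    have hp0 : (0 : ℝ) < p := by exact_mod_cast (hP p hp).pos
    have h1 : ∀ c ∈ range p, |yb T p c| ≤ (if T p c then (1 : ℝ) else 0) + (rho T p : ℝ) / p := by
      intro c _
      have h2 := hge p
      unfold yb
      rw [abs_le]
      split_ifs <;> constructor <;> linarith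
    refine (sum_le_sum h1).trans ?_
    rw [sum_add_distrib, sum_const, card_range, nsmul_eq_mul, ← sum_filter, sum_const, nsmul_eq_mul,
      mul_one, mul_div_cancel₀ _ hp0.ne']
    have h3 : ((((range p).filter (fun c : ℕ => T p c)).card : ℕ) : ℝ) = rho T p := by
      unfold rho
      rfl
    rw [h3]
    have : (rho T p : ℝ) ≤ g := by exact_mod_cast hg p (hP p hp)
    linarith

variable {X : Type} [AddCommGroup X] [DecidableEq X]

/-- the indicator function of `A` -/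
noncomputable def iA (A : Finset X) (x : X) : ℝ := if x ∈ A then 1 else 0

lemma pl_ofFn (A : Finset X) {k : ℕ} (u : Fin k → X) (x : X) (m : ℤ) :
    pl (List.ofFn (fun i => (u i, iA A))) x m = if ∀ i, x + m • u i ∈ A then 1 else 0 := by
  unfold pl
  rw [List.map_ofFn, List.prod_ofFn]
  by_cases h : ∀ i, x + m • u i ∈ A
  · rw [if_pos h]
    apply prod_eq_one
    intro i _
    show iA A (x + m • u i) = 1
    unfold iA
    rw [if_pos (h i)]
  · rw [if_neg h]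
    push Not at h
    obtain ⟨i, hi⟩ := h
    apply prod_eq_zero (mem_univ i)
    show iA A (x + m • u i) = 0
    unfold iA
    rw [if_neg hi]

open Classical in
/-- **The count of the patterns whose difference is sifted.** -/
theorem count (k g : ℕ) : ∃ (B : ℕ) (C : ℝ), 1 ≤ C ∧ ∀ (X : Type) [AddCommGroup X] [DecidableEq X],
    ∀ (T : ℕ → ℤ → Prop) [∀ p n, Decidable (T p n)],
    (∀ p : ℕ, ∀ n m : ℤ, (p : ℤ) ∣ n - m → (T p n ↔ T p m)) → (∀ p : ℕ, p.Prime → rho T p ≤ g) →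
    ∀ (w z M : ℕ) (η : ℝ) (A : Finset X) (u : Fin k → X), 3 ≤ w → 2 * g ≤ w → 1 ≤ z → C ≤ w →
      (2 * C) ^ (2 ^ (k + 1)) * (2 * g) ^ 2 ≤ w → 0 ≤ η →
      2 * ((2 * C) ^ (2 ^ (k + 1)) * (2 * g) ^ 2) / w +
        2 ^ (k + 2) * (k + 2) * ((z : ℝ) ^ (4 * B + 6)) ^ (3 * 2 ^ (k + 1)) / (2 * M + 1) ≤ η ^ (2 ^ (k + 1)) →
      (∏ p ∈ (Ioc w z).filter Nat.Prime, (1 - (rho T p : ℝ) / p)) / 2 *
        ((((A ×ˢ Icc (1 : ℤ) M).filter (fun x => ∀ i, x.1 + x.2 • u i ∈ A)).card : ℝ) -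
          3 * η * (A.card * (2 * M + 1))) ≤
      (((A ×ˢ Icc (1 : ℤ) M).filter (fun x => (∀ i, x.1 + x.2 • u i ∈ A) ∧ Sft T w z x.2)).card : ℝ) := by
  obtain ⟨B, C, hC1, hS⟩ := sieve_exists g
  refine ⟨B, C, hC1, ?_⟩
  intro X _ _ T _ hT hg w z M η A u hw hgw hz hCw hEw hη hsmall
  obtain ⟨c, c0, c1, c2, c3, c4⟩ := hS T hg w z hw hgw hz
  obtain ⟨P, hP⟩ : ∃ P, P = (Ioc w z).filter Nat.Prime := ⟨_, rfl⟩
  rw [← hP] at c1 c2 c3 c4 ⊢
  have hPp : ∀ p ∈ P, p.Prime := fun p hp => by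
    rw [hP, mem_filter] at hp
    exact hp.2
  have hPw : ∀ p ∈ P, w < p := fun p hp => by
    rw [hP, mem_filter, mem_Ioc] at hp
    exact hp.1.1
  have hbal := bal_yb T hT P hPp g hg
  obtain ⟨𝒬, h𝒬⟩ : ∃ 𝒬, 𝒬 = P.powerset.filter (fun q => q.Nonempty ∧ c q ≠ 0) := ⟨_, rfl⟩
  have hmem𝒬 : ∀ q ∈ 𝒬, (q ⊆ P ∧ q.Nonempty) ∧ Pr q ≤ z ^ (4 * B + 6) := by
    intro q hq
    rw [h𝒬, mem_filter, mem_powerset] at hq
    exact ⟨⟨hq.1, hq.2.1⟩, c3 q hq.1 hq.2.2⟩
  obtain ⟨G, hG⟩ : ∃ G : ℤ → ℝ, G = fun m => ∑ q ∈ 𝒬, c q * ∏ p ∈ q, yb T p m := ⟨_, rfl⟩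
  obtain ⟨g0, hg0⟩ : ∃ g0 : ℤ → ℝ, g0 = fun m => if m ∈ Icc (1 : ℤ) M then G m else 0 := ⟨_, rfl⟩
  have hsp : Sp M g0 := by
    intro m hm
    rw [hg0]
    simp only
    rw [if_neg hm]
  have hg0m : ∀ m ∈ Icc (1 : ℤ) M, g0 m = G m := by
    intro m hm
    rw [hg0]
    simp only
    rw [if_pos hm]
  -- the expansion
  have hν : ∀ n : ℤ, c ∅ + G n ≤ if Sft T w z n then 1 else 0 := by
    intro n
    refine le_trans (le_of_eq ?_) (c4 n)
    rw [hG, h𝒬]
    simp only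
    rw [← sum_filter_add_sum_filter_not P.powerset (fun q => q.Nonempty ∧ c q ≠ 0), add_comm]
    congr 1
    symm
    rw [sum_eq_single ∅]
    · simp
    · intro q hq hne
      rw [mem_filter] at hq
      have h1 : q.Nonempty := nonempty_iff_ne_empty.2 hne
      have h2 : c q = 0 := by
        by_contra hc
        exact hq.2 ⟨h1, hc⟩
      rw [h2, zero_mul]
    · intro h
      exfalso
      apply h
      rw [mem_filter]
      exact ⟨empty_mem_powerset P, fun h' => by simp at h'⟩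
  -- the correlation
  obtain ⟨L, hL⟩ : ∃ L : List (X × (X → ℝ)), L = List.ofFn (fun i => (u i, iA A)) := ⟨_, rfl⟩
  have hlen : L.length = k := by rw [hL, List.length_ofFn]
  have hiA1 : ∀ x, |iA A x| ≤ 1 := by
    intro x
    unfold iA
    split_ifs <;> simp
  have hBd : Bd A L := by
    intro p hp
    rw [hL, List.mem_ofFn] at hp
    obtain ⟨i, rfl⟩ := hp
    refine ⟨hiA1, fun x hx => ?_⟩
    show iA A x = 0
    unfold iA
    rw [if_neg hx]
  have hgcs := gcs_cube A M L hBd (iA A) hiA1 g0 hsp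
  rw [hlen] at hgcs
  have hcorr := corr (s := k + 1) hbal w (z ^ (4 * B + 6)) M (by omega) hPw 𝒬 hmem𝒬 c (3 * c ∅) C
    (by positivity) hC1 hCw (fun q hq => c2 q (hmem𝒬 q hq).1.1) hEw
  have hKS : ∑ x ∈ KS (k + 1) M, ∏ ω : Fin (k + 1) → Bool, g0 (lf ω x) =
      ∑ x ∈ KS (k + 1) M, ∏ ω : Fin (k + 1) → Bool, ∑ q ∈ 𝒬, c q * ∏ p ∈ q, yb T p (lf ω x) := by
    apply sum_congr rfl
    intro x hx
    apply prod_congr rfl
    intro ω _
    rw [hg0m _ (by rw [mem_Icc]; exact (mem_KS.1 hx) ω), hG]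
  have hM0 : (0 : ℝ) < 2 * M + 1 := by positivity
  have hTT : |TT A M (iA A) L g0| ≤ 3 * c ∅ * η * (A.card * (2 * M + 1)) := by
    have h1 : (∑ x ∈ KS (k + 1) M, ∏ ω : Fin (k + 1) → Bool, g0 (lf ω x)) / (2 * M + 1) ^ (k + 1 + 1) ≤
        (3 * c ∅ * η) ^ (2 ^ (k + 1)) := by
      rw [div_le_iff₀ (by positivity), hKS]
      refine (le_abs_self _).trans (hcorr.trans ?_)
      have h2 : (3 * c ∅ * η) ^ (2 ^ (k + 1)) = (3 * c ∅) ^ (2 ^ (k + 1)) * η ^ (2 ^ (k + 1)) := by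
        rw [← mul_pow]
      rw [h2, mul_assoc ((3 * c ∅) ^ (2 ^ (k + 1))) (η ^ (2 ^ (k + 1)))]
      apply mul_le_mul_of_nonneg_left _ (by positivity)
      have h3 := mul_le_mul_of_nonneg_right hsmall (show 0 ≤ (2 * (M : ℝ) + 1) ^ (k + 1 + 1) by positivity)
      refine le_trans (le_of_eq ?_) h3
      push_cast
      rw [pow_succ (2 * (M : ℝ) + 1) (k + 1)]
      field_simp
      ring
    have h4 : |TT A M (iA A) L g0| ^ (2 ^ (k + 1)) ≤
        (3 * c ∅ * η * (A.card * (2 * M + 1))) ^ (2 ^ (k + 1)) := by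
      refine hgcs.trans ?_
      rw [mul_pow (3 * c ∅ * η), mul_comm ((3 * c ∅ * η) ^ _)]
      exact mul_le_mul_of_nonneg_left h1 (by positivity)
    exact le_of_pow_le_pow_left₀ (by positivity) (by positivity) h4
  -- the sum
  obtain ⟨Gd, hGd⟩ : ∃ Gd, Gd = (A ×ˢ Icc (1 : ℤ) M).filter (fun x => ∀ i, x.1 + x.2 • u i ∈ A) := ⟨_, rfl⟩
  have hsum1 : ∑ x ∈ Gd, G x.2 = TT A M (iA A) L g0 := by
    unfold TT
    rw [hGd, sum_filter, sum_product]
    apply sum_congr rfl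
    intro x hx
    rw [mul_sum]
    apply sum_congr rfl
    intro m hm
    rw [hL, pl_ofFn, hg0m m hm]
    have : iA A x = 1 := by
      unfold iA
      rw [if_pos hx]
    rw [this, one_mul]
    split_ifs <;> simp
  have hsum2 : c ∅ * Gd.card + ∑ x ∈ Gd, G x.2 ≤
      (((A ×ˢ Icc (1 : ℤ) M).filter (fun x => (∀ i, x.1 + x.2 • u i ∈ A) ∧ Sft T w z x.2)).card : ℝ) := by
    calc c ∅ * Gd.card + ∑ x ∈ Gd, G x.2 = ∑ x ∈ Gd, (c ∅ + G x.2) := by
          rw [sum_add_distrib, sum_const, nsmul_eq_mul]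
          ring
      _ ≤ ∑ x ∈ Gd, (if Sft T w z x.2 then (1 : ℝ) else 0) := sum_le_sum fun x _ => hν x.2
      _ = _ := by
          rw [← sum_filter, sum_const, nsmul_eq_mul, mul_one, hGd, filter_filter]
  have hV0 : 0 ≤ ∏ p ∈ P, (1 - (rho T p : ℝ) / p) := by
    apply prod_nonneg
    intro p hp
    have hp0 : (0 : ℝ) < p := by exact_mod_cast (hPp p hp).pos
    have : (rho T p : ℝ) / p ≤ 1 := by
      rw [div_le_one hp0]
      have : rho T p ≤ p := by
        unfold rho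
        exact (card_filter_le _ _).trans (card_range p).le
      exact_mod_cast this
    linarith
  rw [← hGd]
  rcases le_or_gt 0 ((Gd.card : ℝ) - 3 * η * (A.card * (2 * M + 1))) with hpos | hneg
  · calc (∏ p ∈ P, (1 - (rho T p : ℝ) / p)) / 2 * ((Gd.card : ℝ) - 3 * η * (A.card * (2 * M + 1)))
        ≤ c ∅ * ((Gd.card : ℝ) - 3 * η * (A.card * (2 * M + 1))) := mul_le_mul_of_nonneg_right c1 hpos
      _ = c ∅ * Gd.card - 3 * c ∅ * η * (A.card * (2 * M + 1)) := by ring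
      _ ≤ c ∅ * Gd.card + ∑ x ∈ Gd, G x.2 := by
          rw [hsum1]
          have := (abs_le.1 hTT).1
          linarith
      _ ≤ _ := hsum2
  · have h1 : (∏ p ∈ P, (1 - (rho T p : ℝ) / p)) / 2 *
        ((Gd.card : ℝ) - 3 * η * (A.card * (2 * M + 1))) ≤ 0 :=
      mul_nonpos_of_nonneg_of_nonpos (by positivity) hneg.le
    exact h1.trans (Nat.cast_nonneg _)

end Pool.Agent.H14.MS
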